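import Pool.Agent.Work.MP_8b9f13_co.Defs

/-! A verified depth-first count of equivalence relations on `Fin n` satisfying cut conditions. -/

namespace Pool.Agent.Work.MP_8b9f13_co

open Finset

/-- `v` separates the labels `a` and `b` -/
def Sep (up : ℕ → ℕ) (v a b : ℕ) : Prop := (up a ^^^ up b).testBit v = true

theorem sep_comm {up : ℕ → ℕ} {v a b : ℕ} (h : Sep up v a b) : Sep up v b a := by
  unfold Sep at *
  rw [Nat.xor_comm]; exact h

theorem sep_iff {up : ℕ → ℕ} {v a b : ℕ} :
    Sep up v a b ↔ (up a).testBit v ≠ (up b).testBit v := by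
  unfold Sep
  rw [Nat.testBit_xor]
  cases (up a).testBit v <;> cases (up b).testBit v <;> simp

theorem sep_irrefl {up : ℕ → ℕ} {v a : ℕ} : ¬ Sep up v a a := by
  rw [sep_iff]; simp

theorem sep_trans {up : ℕ → ℕ} {v a b c : ℕ} (h : Sep up v a c) : Sep up v a b ∨ Sep up v b c := by
  rw [sep_iff] at *
  rw [sep_iff]
  by_contra hcon
  push Not at hcon
  exact h (hcon.1.trans hcon.2)

variable {n : ℕ}

/-- no class of `s` is cut by `v` -/
def Uncut (up : ℕ → ℕ) (s : Setoid (Fin n)) (v : ℕ) : Prop :=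
  ∀ a b : Fin n, s.r a b → ¬ Sep up v a b

/-- distinct classes are separated by an uncut edge of the system with bit set `M` -/
def Conv (up : ℕ → ℕ) (M : ℕ) (s : Setoid (Fin n)) : Prop :=
  ∀ a b : Fin n, ¬ s.r a b → ∃ v, M.testBit v = true ∧ Uncut up s v ∧ Sep up v a b

/-- the property counted -/
def Wanted (up : ℕ → ℕ) (MT MF l : ℕ) (s : Setoid (Fin n)) : Prop :=
  Conv up MT s ∧ Conv up MF s ∧ numClasses s = l ∧ NonTrivial s

/-- two different classes are never cut by the same edge -/
def NC (up : ℕ → ℕ) (s : Setoid (Fin n)) : Prop :=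
  ∀ a b c d : Fin n, s.r a b → s.r c d → ¬ s.r a c → ∀ v, ¬ (Sep up v a b ∧ Sep up v c d)

def sepOK (up : ℕ → ℕ) (MT MF U a b : ℕ) : Bool :=
  let d := up a ^^^ up b
  let e := d ^^^ (d &&& U)
  (e &&& MT != 0) && (e &&& MF != 0)

def finalOK (up : ℕ → ℕ) (MT MF l U : ℕ) (bs : List (ℕ × ℕ)) : Bool :=
  (bs.length == l) && (2 ≤ (bs.filter (fun b => b.2 != 0)).length) &&
    bs.all (fun b => bs.all (fun b' => b'.1 ≤ b.1 || sepOK up MT MF U b.1 b'.1))

def joinAll (g : ℕ → List (ℕ × ℕ) → ℕ) (up : ℕ → ℕ) (i U : ℕ) :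
    List (ℕ × ℕ) → List (ℕ × ℕ) → ℕ
  | _, [] => 0
  | pre, b :: bs =>
    (if (b.2 ||| (up i ^^^ up b.1)) &&& (U ^^^ b.2) = 0 then
      g (U ||| (b.2 ||| (up i ^^^ up b.1))) (pre ++ (b.1, b.2 ||| (up i ^^^ up b.1)) :: bs)
      else 0) + joinAll g up i U (pre ++ [b]) bs

def go (up : ℕ → ℕ) (MT MF l : ℕ) : ℕ → ℕ → ℕ → List (ℕ × ℕ) → ℕ
  | 0, _, U, bs => if finalOK up MT MF l U bs then 1 else 0
  | f + 1, i, U, bs =>
    if bs.length + (f + 1) < l then 0 else
    (if bs.length < l then go up MT MF l f (i + 1) U (bs ++ [(i, 0)]) else 0) +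
      joinAll (fun U' bs' => go up MT MF l f (i + 1) U' bs') up i U [] bs

/-- invariants of the search -/
structure Inv (n : ℕ) (up : ℕ → ℕ) (lab : Fin n → ℕ) (i U : ℕ) (bs : List (ℕ × ℕ)) : Prop where
  nodup : (bs.map Prod.fst).Nodup
  lab_mem : ∀ j : Fin n, j.val < i → lab j ∈ bs.map Prod.fst
  rep : ∀ b ∈ bs, ∃ r : Fin n, r.val = b.1 ∧ r.val < i ∧ lab r = b.1
  cut : ∀ b ∈ bs, ∀ v, b.2.testBit v = true ↔ ∃ j : Fin n, j.val < i ∧ lab j = b.1 ∧ Sep up v j b.1
  U_iff : ∀ v, U.testBit v = true ↔ ∃ b ∈ bs, b.2.testBit v = true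
  disj : ∀ b ∈ bs, ∀ b' ∈ bs, b.1 ≠ b'.1 → ∀ v, ¬ (b.2.testBit v = true ∧ b'.2.testBit v = true)

/-- the relations compatible with a partial labelling -/
def S (P : Setoid (Fin n) → Prop) (lab : Fin n → ℕ) (i : ℕ) : Set (Setoid (Fin n)) :=
  {s | P s ∧ ∀ j j' : Fin n, j.val < i → j'.val < i → (s.r j j' ↔ lab j = lab j')}

instance : Finite (Setoid (Fin n)) := by
  classical
  have : Function.Injective (fun s : Setoid (Fin n) => s.r) := by
    intro s t h
    exact Setoid.ext (fun a b => by
      have := congrFun (congrFun h a) b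
      exact iff_of_eq this)
  exact Finite.of_injective _ this

theorem ncard_fiber {α : Type} [Finite α] (A : Set α) (c : α → ℕ) (l : List ℕ) (hl : l.Nodup)
    (hc : ∀ s ∈ A, c s ∈ l) :
    A.ncard = (l.map (fun r => ({s | s ∈ A ∧ c s = r} : Set α).ncard)).sum := by
  classical
  have hA : A.Finite := Set.toFinite A
  have h1 : A.ncard = hA.toFinset.card := Set.ncard_eq_toFinset_card A hA
  rw [h1, Finset.card_eq_sum_card_fiberwise (f := c) (t := l.toFinset)
    (fun s hs => by simpa using hc s (by simpa using hs))]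
  rw [← List.sum_toFinset _ hl]
  apply Finset.sum_congr rfl
  intro r _
  rw [Set.ncard_eq_toFinset_card _ (Set.toFinite _)]
  congr 1
  ext s
  simp

theorem S_new {P : Setoid (Fin n) → Prop} {lab : Fin n → ℕ} {i : ℕ} (hi : i < n)
    (s : Setoid (Fin n)) (r : ℕ) :
    s ∈ S P (Function.update lab ⟨i, hi⟩ r) (i + 1) ↔
      s ∈ S P lab i ∧ ∀ j : Fin n, j.val < i → (s.r j ⟨i, hi⟩ ↔ lab j = r) := by
  constructor
  · rintro ⟨h1, h2⟩
    refine ⟨⟨h1, fun j j' hj hj' => ?_⟩, fun j hj => ?_⟩
    · have := h2 j j' (by omega) (by omega)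
      rwa [Function.update_of_ne (by intro h; subst h; simp at hj),
        Function.update_of_ne (by intro h; subst h; simp at hj')] at this
    · have := h2 j ⟨i, hi⟩ (by omega) (by simp)
      rwa [Function.update_of_ne (by intro h; subst h; simp at hj),
        Function.update_self] at this
  · rintro ⟨⟨h1, h2⟩, h3⟩
    refine ⟨h1, fun j j' hj hj' => ?_⟩
    rcases Nat.lt_or_ge j.val i with a | a
    · rcases Nat.lt_or_ge j'.val i with b | b
      · rw [Function.update_of_ne (by intro h; subst h; simp at a),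
          Function.update_of_ne (by intro h; subst h; simp at b)]
        exact h2 j j' a b
      · have hj'' : j' = ⟨i, hi⟩ := Fin.ext (by simp; omega)
        subst hj''
        rw [Function.update_of_ne (by intro h; subst h; simp at a), Function.update_self]
        exact h3 j a
    · have hj'' : j = ⟨i, hi⟩ := Fin.ext (by simp; omega)
      subst hj''
      rcases Nat.lt_or_ge j'.val i with b | b
      · rw [Function.update_of_ne (a := j') (by intro h; subst h; simp at b), Function.update_self]
        have := h3 j' b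
        constructor
        · intro h; exact (this.mp (s.symm' h)).symm
        · intro h; exact s.symm' (this.mpr h.symm)
      · have hj''' : j' = ⟨i, hi⟩ := Fin.ext (by simp; omega)
        subst hj'''
        simp only [Function.update_self, iff_true]
        exact s.refl' _


theorem ne_zero_iff {x : ℕ} : x ≠ 0 ↔ ∃ v, x.testBit v = true := by
  constructor
  · intro h
    by_contra hcon
    push Not at hcon
    apply h
    apply Nat.zero_of_testBit_eq_false
    intro i
    have := hcon i
    simpa using this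
  · rintro ⟨v, hv⟩ h
    rw [h] at hv
    simp at hv

theorem lab_lt {up : ℕ → ℕ} {lab : Fin n → ℕ} {i U : ℕ} {bs : List (ℕ × ℕ)}
    (h : Inv n up lab i U bs) {r : ℕ} (hr : r ∈ bs.map Prod.fst) : r < i := by
  rw [List.mem_map] at hr
  obtain ⟨b, hb, rfl⟩ := hr
  obtain ⟨r, h1, h2, _⟩ := h.rep b hb
  omega

theorem S_split {P : Setoid (Fin n) → Prop} {up : ℕ → ℕ} {lab : Fin n → ℕ} {i U : ℕ}
    {bs : List (ℕ × ℕ)} (h : Inv n up lab i U bs) (hi : i < n) :
    (S P lab i).ncard = (S P (Function.update lab ⟨i, hi⟩ i) (i + 1)).ncard +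
      (bs.map (fun b => (S P (Function.update lab ⟨i, hi⟩ b.1) (i + 1)).ncard)).sum := by
  classical
  set x : Fin n := ⟨i, hi⟩ with hx
  let c : Setoid (Fin n) → ℕ := fun s =>
    if hs : ∃ j : Fin n, j.val < i ∧ s.r j x then lab hs.choose else i
  have hcn : ∀ s ∈ S P lab i, c s ∈ i :: bs.map Prod.fst := by
    intro s _
    by_cases hs : ∃ j : Fin n, j.val < i ∧ s.r j x
    · have : c s = lab hs.choose := by simp only [c, dif_pos hs]
      rw [this]
      exact List.mem_cons_of_mem _ (h.lab_mem _ hs.choose_spec.1)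
    · have : c s = i := by simp only [c, dif_neg hs]
      rw [this]
      exact List.mem_cons_self
  have hnd : (i :: bs.map Prod.fst).Nodup := by
    rw [List.nodup_cons]
    exact ⟨fun hm => lt_irrefl _ (lab_lt h hm), h.nodup⟩
  rw [ncard_fiber (S P lab i) c _ hnd hcn, List.map_cons, List.sum_cons, List.map_map]
  have e0 : {s | s ∈ S P lab i ∧ c s = i} = S P (Function.update lab x i) (i + 1) := by
    ext s
    rw [Set.mem_ofPred_eq, S_new hi s i]
    constructor
    · rintro ⟨h1, h2⟩
      refine ⟨h1, fun j hj => ?_⟩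
      have hne : lab j ≠ i := fun e => by
        have := lab_lt h (h.lab_mem j hj)
        omega
      have hns : ¬ ∃ j : Fin n, j.val < i ∧ s.r j x := by
        intro hs
        have : c s = lab hs.choose := by simp only [c, dif_pos hs]
        rw [this] at h2
        have := lab_lt h (h.lab_mem _ hs.choose_spec.1)
        omega
      constructor
      · intro hr; exact absurd ⟨j, hj, hr⟩ hns
      · intro he; exact absurd he hne
    · rintro ⟨h1, h2⟩
      refine ⟨h1, ?_⟩
      have hns : ¬ ∃ j : Fin n, j.val < i ∧ s.r j x := by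
        rintro ⟨j, hj, hr⟩
        have := (h2 j hj).mp hr
        have := lab_lt h (h.lab_mem j hj)
        omega
      simp only [c, dif_neg hns]
  have e1 : ∀ b ∈ bs, {s | s ∈ S P lab i ∧ c s = b.1} = S P (Function.update lab x b.1) (i + 1) := by
    intro b hb
    obtain ⟨rb, hrb1, hrb2, hrb3⟩ := h.rep b hb
    ext s
    rw [Set.mem_ofPred_eq, S_new hi s b.1]
    constructor
    · rintro ⟨h1, h2⟩
      refine ⟨h1, ?_⟩
      by_cases hs : ∃ j : Fin n, j.val < i ∧ s.r j x
      · have hc : c s = lab hs.choose := by simp only [c, dif_pos hs]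
        rw [hc] at h2
        intro j hj
        have hj0 := hs.choose_spec
        constructor
        · intro hr
          rw [← h2]
          exact (h1.2 j _ hj hj0.1).mp (s.trans' hr (s.symm' hj0.2))
        · intro he
          rw [← h2] at he
          exact s.trans' ((h1.2 j _ hj hj0.1).mpr he) hj0.2
      · have hc : c s = i := by simp only [c, dif_neg hs]
        omega
    · rintro ⟨h1, h2⟩
      refine ⟨h1, ?_⟩
      have hs : ∃ j : Fin n, j.val < i ∧ s.r j x := ⟨rb, hrb2, (h2 rb hrb2).mpr hrb3⟩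
      have hc : c s = lab hs.choose := by simp only [c, dif_pos hs]
      rw [hc]
      exact (h2 _ hs.choose_spec.1).mp hs.choose_spec.2
  rw [e0]
  congr 1
  congr 1
  apply List.map_congr_left
  intro b hb
  simp only [Function.comp]
  rw [e1 b hb]

theorem inv_new {up : ℕ → ℕ} {lab : Fin n → ℕ} {i U : ℕ} {bs : List (ℕ × ℕ)}
    (h : Inv n up lab i U bs) (hi : i < n) :
    Inv n up (Function.update lab ⟨i, hi⟩ i) (i + 1) U (bs ++ [(i, 0)]) where
  nodup := by
    rw [List.map_append, List.nodup_append]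
    refine ⟨h.nodup, by simp, ?_⟩
    intro a ha b hb
    simp only [List.map_cons, List.map_nil, List.mem_singleton] at hb
    have := lab_lt h ha
    omega
  lab_mem := by
    intro j hj
    rw [List.map_append, List.mem_append]
    rcases Nat.lt_or_ge j.val i with a | a
    · left
      rw [Function.update_of_ne (by intro h; subst h; simp at a)]
      exact h.lab_mem j a
    · right
      have : j = ⟨i, hi⟩ := Fin.ext (by simp; omega)
      subst this
      simp
  rep := by
    intro b hb
    rw [List.mem_append, List.mem_singleton] at hb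
    rcases hb with hb | rfl
    · obtain ⟨r, h1, h2, h3⟩ := h.rep b hb
      refine ⟨r, h1, by omega, ?_⟩
      rw [Function.update_of_ne (by intro h; subst h; simp at h2)]
      exact h3
    · exact ⟨⟨i, hi⟩, rfl, by simp, by simp⟩
  cut := by
    intro b hb v
    rw [List.mem_append, List.mem_singleton] at hb
    rcases hb with hb | rfl
    · rw [h.cut b hb v]
      have hbi : b.1 < i := lab_lt h (List.mem_map_of_mem hb)
      constructor
      · rintro ⟨j, h1, h2, h3⟩
        refine ⟨j, by omega, ?_, h3⟩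
        rw [Function.update_of_ne (by intro h; subst h; simp at h1)]
        exact h2
      · rintro ⟨j, h1, h2, h3⟩
        rcases Nat.lt_or_ge j.val i with a | a
        · rw [Function.update_of_ne (by intro h; subst h; simp at a)] at h2
          exact ⟨j, a, h2, h3⟩
        · exfalso
          have : j = ⟨i, hi⟩ := Fin.ext (by simp; omega)
          subst this
          simp at h2
          omega
    · simp only [Nat.zero_testBit, Bool.false_eq_true, false_iff, not_exists]
      rintro j ⟨h1, h2, h3⟩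
      rcases Nat.lt_or_ge j.val i with a | a
      · rw [Function.update_of_ne (by intro h; subst h; simp at a)] at h2
        have := lab_lt h (h.lab_mem j a)
        omega
      · have : j = ⟨i, hi⟩ := Fin.ext (by simp; omega)
        subst this
        exact sep_irrefl h3
  U_iff := by
    intro v
    rw [h.U_iff v]
    constructor
    · rintro ⟨b, hb, hv⟩
      exact ⟨b, List.mem_append_left _ hb, hv⟩
    · rintro ⟨b, hb, hv⟩
      rw [List.mem_append, List.mem_singleton] at hb
      rcases hb with hb | rfl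
      · exact ⟨b, hb, hv⟩
      · simp at hv
  disj := by
    intro b hb b' hb' hne v
    rw [List.mem_append, List.mem_singleton] at hb hb'
    rcases hb with hb | rfl
    · rcases hb' with hb' | rfl
      · exact h.disj b hb b' hb' hne v
      · simp
    · simp

theorem inv_join {up : ℕ → ℕ} {lab : Fin n → ℕ} {i U : ℕ} {pre post : List (ℕ × ℕ)} {b : ℕ × ℕ}
    (h : Inv n up lab i U (pre ++ b :: post)) (hi : i < n)
    (htest : (b.2 ||| (up i ^^^ up b.1)) &&& (U ^^^ b.2) = 0) :
    Inv n up (Function.update lab ⟨i, hi⟩ b.1) (i + 1) (U ||| (b.2 ||| (up i ^^^ up b.1)))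
      (pre ++ (b.1, b.2 ||| (up i ^^^ up b.1)) :: post) := by
  have hbmem : b ∈ pre ++ b :: post := by simp
  have hold : ∀ b' ∈ pre ++ (b.1, b.2 ||| (up i ^^^ up b.1)) :: post,
      (b' ∈ pre ++ b :: post ∧ b'.1 ≠ b.1) ∨ b' = (b.1, b.2 ||| (up i ^^^ up b.1)) := by
    intro b' hb'
    rw [List.mem_append, List.mem_cons] at hb'
    have hnd := h.nodup
    rw [List.map_append, List.map_cons, List.nodup_append, List.nodup_cons] at hnd
    obtain ⟨h1, ⟨h2, h3⟩, h4⟩ := hnd
    rcases hb' with hb' | rfl | hb'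
    · left
      refine ⟨List.mem_append_left _ hb', ?_⟩
      exact h4 _ (List.mem_map_of_mem hb') _ (by simp)
    · right; rfl
    · left
      refine ⟨List.mem_append_right _ (List.mem_cons_of_mem _ hb'), ?_⟩
      intro e
      exact h2 (e ▸ List.mem_map_of_mem hb')
  have htest' : ∀ v, Sep up v i b.1 → U.testBit v = true → b.2.testBit v = true := by
    intro v h1 h2
    by_contra h3
    have : ((b.2 ||| (up i ^^^ up b.1)) &&& (U ^^^ b.2)).testBit v = true := by
      rw [Nat.testBit_and, Nat.testBit_or, Nat.testBit_xor (x := U)]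
      unfold Sep at h1
      rw [h1, h2]
      simp at h3
      simp [h3]
    rw [htest] at this
    simp at this
  have hdisj : ∀ b' ∈ pre ++ b :: post, b'.1 ≠ b.1 → ∀ v,
      ¬ ((b.2 ||| (up i ^^^ up b.1)).testBit v = true ∧ b'.2.testBit v = true) := by
    rintro b' hb' hne v ⟨h1, h2⟩
    rw [Nat.testBit_or, Bool.or_eq_true] at h1
    rcases h1 with h1 | h1
    · exact h.disj b hbmem b' hb' hne.symm v ⟨h1, h2⟩
    · have hU : U.testBit v = true := (h.U_iff v).mpr ⟨b', hb', h2⟩
      exact h.disj b hbmem b' hb' hne.symm v ⟨htest' v h1 hU, h2⟩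
  refine ⟨?_, ?_, ?_, ?_, ?_, ?_⟩
  · have := h.nodup
    simpa using this
  · intro j hj
    rcases Nat.lt_or_ge j.val i with a | a
    · rw [Function.update_of_ne (by intro h; subst h; simp at a)]
      have := h.lab_mem j a
      simpa using this
    · have : j = ⟨i, hi⟩ := Fin.ext (by simp; omega)
      subst this
      simp
  · intro b' hb'
    rcases hold b' hb' with ⟨h1, h2⟩ | rfl
    · obtain ⟨r, g1, g2, g3⟩ := h.rep b' h1
      refine ⟨r, g1, by omega, ?_⟩
      rw [Function.update_of_ne (by intro h; subst h; simp at g2)]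
      exact g3
    · obtain ⟨r, g1, g2, g3⟩ := h.rep b hbmem
      refine ⟨r, g1, by omega, ?_⟩
      rw [Function.update_of_ne (by intro h; subst h; simp at g2)]
      exact g3
  · intro b' hb' v
    rcases hold b' hb' with ⟨h1, h2⟩ | rfl
    · rw [h.cut b' h1 v]
      constructor
      · rintro ⟨j, g1, g2, g3⟩
        refine ⟨j, by omega, ?_, g3⟩
        rw [Function.update_of_ne (by intro h; subst h; simp at g1)]
        exact g2
      · rintro ⟨j, g1, g2, g3⟩
        rcases Nat.lt_or_ge j.val i with a | a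
        · rw [Function.update_of_ne (by intro h; subst h; simp at a)] at g2
          exact ⟨j, a, g2, g3⟩
        · exfalso
          have : j = ⟨i, hi⟩ := Fin.ext (by simp; omega)
          subst this
          rw [Function.update_self] at g2
          exact h2 g2.symm
    · simp only
      rw [Nat.testBit_or, Bool.or_eq_true, h.cut b hbmem v]
      constructor
      · rintro (⟨j, g1, g2, g3⟩ | g)
        · refine ⟨j, by omega, ?_, g3⟩
          rw [Function.update_of_ne (by intro h; subst h; simp at g1)]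
          exact g2
        · exact ⟨⟨i, hi⟩, by simp, by simp, g⟩
      · rintro ⟨j, g1, g2, g3⟩
        rcases Nat.lt_or_ge j.val i with a | a
        · left
          rw [Function.update_of_ne (by intro h; subst h; simp at a)] at g2
          exact ⟨j, a, g2, g3⟩
        · right
          have : j = ⟨i, hi⟩ := Fin.ext (by simp; omega)
          subst this
          exact g3
  · intro v
    rw [Nat.testBit_or, Bool.or_eq_true, h.U_iff v]
    constructor
    · rintro (⟨b', hb', hv⟩ | hv)
      · by_cases e : b'.1 = b.1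
        · have hb'' : b' = b := by
            by_contra hne
            have hnd := h.nodup
            have := List.inj_on_of_nodup_map hnd hb' hbmem e
            exact hne this
          subst hb''
          exact ⟨_, List.mem_append_right _ List.mem_cons_self, by
            simp only [Nat.testBit_or, Bool.or_eq_true]; exact Or.inl hv⟩
        · refine ⟨b', ?_, hv⟩
          rw [List.mem_append, List.mem_cons] at hb' ⊢
          rcases hb' with hb' | rfl | hb'
          · exact Or.inl hb'
          · exact absurd rfl e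
          · exact Or.inr (Or.inr hb')
      · exact ⟨_, List.mem_append_right _ List.mem_cons_self, hv⟩
    · rintro ⟨b', hb', hv⟩
      rcases hold b' hb' with ⟨h1, h2⟩ | rfl
      · exact Or.inl ⟨b', h1, hv⟩
      · exact Or.inr hv
  · intro b1 hb1 b2 hb2 hne v
    rcases hold b1 hb1 with ⟨h1, h2⟩ | rfl
    · rcases hold b2 hb2 with ⟨h1', h2'⟩ | rfl
      · exact h.disj b1 h1 b2 h1' hne v
      · intro ⟨g1, g2⟩
        exact hdisj b1 h1 h2 v ⟨g2, g1⟩
    · rcases hold b2 hb2 with ⟨h1', h2'⟩ | rfl
      · exact hdisj b2 h1' h2' v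
      · exact absurd rfl hne

theorem join_empty {P : Setoid (Fin n) → Prop} {up : ℕ → ℕ} {lab : Fin n → ℕ} {i U : ℕ}
    {bs : List (ℕ × ℕ)} {b : ℕ × ℕ} (hP : ∀ s, P s → NC up s)
    (h : Inv n up lab i U bs) (hb : b ∈ bs) (hi : i < n)
    (htest : ¬ (b.2 ||| (up i ^^^ up b.1)) &&& (U ^^^ b.2) = 0) :
    S P (Function.update lab ⟨i, hi⟩ b.1) (i + 1) = ∅ := by
  rw [Set.eq_empty_iff_forall_notMem]
  intro s hs
  rw [S_new hi s b.1] at hs
  obtain ⟨hs1, hs2⟩ := hs
  obtain ⟨v, hv⟩ := ne_zero_iff.mp htest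
  rw [Nat.testBit_and, Nat.testBit_or, Nat.testBit_xor (x := U), Bool.and_eq_true, Bool.or_eq_true]
    at hv
  obtain ⟨hv1, hv2⟩ := hv
  have hbU : b.2.testBit v = true → U.testBit v = true := fun g => (h.U_iff v).mpr ⟨b, hb, g⟩
  have hvb : b.2.testBit v = false := by
    by_contra hc
    have hc' : b.2.testBit v = true := by simpa using hc
    rw [hc', hbU hc'] at hv2
    simp at hv2
  have hvU : U.testBit v = true := by
    rw [hvb] at hv2
    simpa using hv2
  have hsep : Sep up v i b.1 := by
    rcases hv1 with g | g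
    · rw [hvb] at g; simp at g
    · exact g
  obtain ⟨b', hb', hv'⟩ := (h.U_iff v).mp hvU
  obtain ⟨j, hj1, hj2, hj3⟩ := (h.cut b' hb' v).mp hv'
  obtain ⟨rb, r1, r2, r3⟩ := h.rep b hb
  obtain ⟨rb', r1', r2', r3'⟩ := h.rep b' hb'
  have hne : b'.1 ≠ b.1 := by
    intro e
    have : b' = b := List.inj_on_of_nodup_map h.nodup hb' hb e
    rw [this, hvb] at hv'
    simp at hv'
  have a1 : s.r ⟨i, hi⟩ rb := s.symm' ((hs2 rb r2).mpr r3)
  have a2 : s.r j rb' := (hs1.2 j rb' hj1 r2').mpr (by rw [hj2, r3'])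
  have a3 : ¬ s.r ⟨i, hi⟩ j := by
    intro g
    have := (hs2 j hj1).mp (s.symm' g)
    rw [hj2] at this
    exact hne this
  apply hP s hs1.1 ⟨i, hi⟩ rb j rb' a1 a2 a3 v
  constructor
  · show Sep up v i rb
    rw [r1]; exact hsep
  · show Sep up v j rb'
    rw [r1']; exact hj3

theorem length_le_classes {P : Setoid (Fin n) → Prop} {up : ℕ → ℕ} {lab : Fin n → ℕ} {i U : ℕ}
    {bs : List (ℕ × ℕ)} (h : Inv n up lab i U bs) {s : Setoid (Fin n)} (hs : s ∈ S P lab i) :
    bs.length ≤ numClasses s := by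
  classical
  have hex : ∀ r : {r // r ∈ (bs.map Prod.fst).toFinset}, ∃ x : Fin n, x.val < i ∧ lab x = r.1 := by
    rintro ⟨r, hr⟩
    rw [List.mem_toFinset, List.mem_map] at hr
    obtain ⟨b, hb, rfl⟩ := hr
    obtain ⟨x, h1, h2, h3⟩ := h.rep b hb
    exact ⟨x, h2, h3⟩
  choose g hg1 hg2 using hex
  have hinj : Function.Injective (fun r => Quotient.mk s (g r)) := by
    intro r r' e
    have h1 : s.r (g r) (g r') := Quotient.exact e
    have h2 := (hs.2 _ _ (hg1 r) (hg1 r')).mp h1
    rw [hg2, hg2] at h2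
    exact Subtype.ext h2
  have h3 := Nat.card_le_card_of_injective _ hinj
  rw [Nat.card_eq_fintype_card, Fintype.card_coe, List.toFinset_card_of_nodup h.nodup,
    List.length_map] at h3
  exact h3


theorem classes_le {P : Setoid (Fin n) → Prop} {up : ℕ → ℕ} {lab : Fin n → ℕ} {i U : ℕ}
    {bs : List (ℕ × ℕ)} (h : Inv n up lab i U bs) {s : Setoid (Fin n)} (hs : s ∈ S P lab i) :
    numClasses s ≤ bs.length + (n - i) := by
  classical
  set A : Finset (Fin n) := univ.filter (fun x => i ≤ x.val) with hA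
  set B : Finset (Fin n) := univ.filter (fun x => lab x = x.val ∧ x.val < i) with hB
  have hsurj : Function.Surjective (fun x : {x // x ∈ A ∪ B} => Quotient.mk s x.1) := by
    intro q
    obtain ⟨x, rfl⟩ := Quotient.exists_rep q
    rcases Nat.lt_or_ge x.val i with hx | hx
    · have h1 := h.lab_mem x hx
      rw [List.mem_map] at h1
      obtain ⟨b, hb, hbx⟩ := h1
      obtain ⟨r, r1, r2, r3⟩ := h.rep b hb
      refine ⟨⟨r, ?_⟩, ?_⟩
      · rw [Finset.mem_union]
        right
        rw [hB, Finset.mem_filter]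
        exact ⟨mem_univ _, by rw [r3, r1], r2⟩
      · exact Quotient.sound ((hs.2 r x r2 hx).mpr (by rw [r3, hbx]))
    · refine ⟨⟨x, ?_⟩, rfl⟩
      rw [Finset.mem_union]
      left
      rw [hA, Finset.mem_filter]
      exact ⟨mem_univ _, hx⟩
  have h1 := Nat.card_le_card_of_surjective _ hsurj
  rw [Nat.card_eq_fintype_card (α := {x // x ∈ A ∪ B}), Fintype.card_coe] at h1
  have hAc : A.card ≤ n - i := by
    have : A.card ≤ (Finset.Ico i n).card := by
      apply Finset.card_le_card_of_injOn (fun x : Fin n => x.val)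
      · intro x hx
        rw [Finset.mem_coe, hA, Finset.mem_filter] at hx
        rw [Finset.mem_coe, Finset.mem_Ico]
        exact ⟨hx.2, x.2⟩
      · intro x _ y _ e
        exact Fin.ext e
    simpa using this
  have hBc : B.card ≤ bs.length := by
    have : B.card ≤ (bs.map Prod.fst).toFinset.card := by
      apply Finset.card_le_card_of_injOn (fun x : Fin n => x.val)
      · intro x hx
        rw [Finset.mem_coe, hB, Finset.mem_filter] at hx
        rw [Finset.mem_coe, List.mem_toFinset]
        have := h.lab_mem x hx.2.2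
        rw [hx.2.1] at this
        exact this
      · intro x _ y _ e
        exact Fin.ext e
    rw [List.toFinset_card_of_nodup h.nodup, List.length_map] at this
    exact this
  have h2 := Finset.card_union_le A B
  unfold numClasses
  omega

theorem sepOK_iff {up : ℕ → ℕ} {MT MF U a b : ℕ} : sepOK up MT MF U a b = true ↔
    (∃ v, MT.testBit v = true ∧ U.testBit v = false ∧ Sep up v a b) ∧
    (∃ v, MF.testBit v = true ∧ U.testBit v = false ∧ Sep up v a b) := by
  have key : ∀ M : ℕ, (((up a ^^^ up b) ^^^ ((up a ^^^ up b) &&& U)) &&& M != 0) = true ↔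
      ∃ v, M.testBit v = true ∧ U.testBit v = false ∧ Sep up v a b := by
    intro M
    rw [bne_iff_ne, ne_zero_iff]
    constructor
    · rintro ⟨v, hv⟩
      rw [Nat.testBit_and, Nat.testBit_xor, Nat.testBit_and, Bool.and_eq_true] at hv
      obtain ⟨h1, h2⟩ := hv
      refine ⟨v, h2, ?_⟩
      unfold Sep
      revert h1
      cases (up a ^^^ up b).testBit v <;> cases U.testBit v <;> simp
    · rintro ⟨v, h1, h2, h3⟩
      refine ⟨v, ?_⟩
      unfold Sep at h3
      rw [Nat.testBit_and, Nat.testBit_xor, Nat.testBit_and, h1, h2, h3]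
      rfl
  unfold sepOK
  simp only [Bool.and_eq_true]
  rw [key MT, key MF]

theorem ker_rel {lab : Fin n → ℕ} {a b : Fin n} : (Setoid.ker lab).r a b ↔ lab a = lab b := Iff.rfl

theorem uncut_iff {up : ℕ → ℕ} {lab : Fin n → ℕ} {U : ℕ}
    {bs : List (ℕ × ℕ)} (h : Inv n up lab n U bs) (v : ℕ) :
    Uncut up (Setoid.ker lab) v ↔ U.testBit v = false := by
  constructor
  · intro hu
    by_contra hc
    have hc' : U.testBit v = true := by simpa using hc
    obtain ⟨b, hb, hv⟩ := (h.U_iff v).mp hc'
    obtain ⟨j, hj1, hj2, hj3⟩ := (h.cut b hb v).mp hv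
    obtain ⟨r, h1, h2, h3⟩ := h.rep b hb
    refine hu j r ?_ ?_
    · rw [ker_rel, hj2, h3]
    · rw [h1]; exact hj3
  · intro hU a b hab hsep
    rw [ker_rel] at hab
    have ha := h.lab_mem a a.2
    rw [List.mem_map] at ha
    obtain ⟨c, hc, hca⟩ := ha
    rcases sep_trans (b := c.1) hsep with g | g
    · have : U.testBit v = true := (h.U_iff v).mpr ⟨c, hc, (h.cut c hc v).mpr ⟨a, a.2, hca.symm, g⟩⟩
      rw [hU] at this
      exact Bool.false_ne_true this
    · have : U.testBit v = true := (h.U_iff v).mpr ⟨c, hc, (h.cut c hc v).mpr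
        ⟨b, b.2, by rw [← hab, hca], sep_comm g⟩⟩
      rw [hU] at this
      exact Bool.false_ne_true this

theorem conv_iff {up : ℕ → ℕ} {lab : Fin n → ℕ} {U M : ℕ}
    {bs : List (ℕ × ℕ)} (h : Inv n up lab n U bs) :
    Conv up M (Setoid.ker lab) ↔ ∀ b ∈ bs, ∀ b' ∈ bs, b.1 < b'.1 →
      ∃ v, M.testBit v = true ∧ U.testBit v = false ∧ Sep up v b.1 b'.1 := by
  constructor
  · intro hc b hb b' hb' hlt
    obtain ⟨r, h1, h2, h3⟩ := h.rep b hb
    obtain ⟨r', h1', h2', h3'⟩ := h.rep b' hb'
    obtain ⟨v, g1, g2, g3⟩ := hc r r' (by rw [ker_rel, h3, h3']; omega)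
    refine ⟨v, g1, (uncut_iff h v).mp g2, ?_⟩
    rw [h1, h1'] at g3
    exact g3
  · intro hall a c hac
    rw [ker_rel] at hac
    have ha := h.lab_mem a a.2
    have hc := h.lab_mem c c.2
    rw [List.mem_map] at ha hc
    obtain ⟨b, hb, hba⟩ := ha
    obtain ⟨b', hb', hbc⟩ := hc
    have main : ∀ v, U.testBit v = false → Sep up v b.1 b'.1 → Sep up v a c := by
      intro v hv hs
      have hu := (uncut_iff h v).mpr hv
      obtain ⟨r, h1, h2, h3⟩ := h.rep b hb
      obtain ⟨r', h1', h2', h3'⟩ := h.rep b' hb'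
      rw [← h1, ← h1'] at hs
      rcases sep_trans (b := a.val) hs with g | g
      · exact absurd g (hu r a (by rw [ker_rel, h3, hba]))
      · rcases sep_trans (b := c.val) g with g' | g'
        · exact g'
        · exact absurd g' (hu c r' (by rw [ker_rel, h3', hbc]))
    have hne : b.1 ≠ b'.1 := by rw [hba, hbc]; exact hac
    rcases lt_or_gt_of_ne hne with hlt | hgt
    · obtain ⟨v, g1, g2, g3⟩ := hall b hb b' hb' hlt
      exact ⟨v, g1, (uncut_iff h v).mpr g2, main v g2 g3⟩
    · obtain ⟨v, g1, g2, g3⟩ := hall b' hb' b hb hgt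
      exact ⟨v, g1, (uncut_iff h v).mpr g2, main v g2 (sep_comm g3)⟩

theorem classes_eq {up : ℕ → ℕ} {lab : Fin n → ℕ} {U : ℕ}
    {bs : List (ℕ × ℕ)} (h : Inv n up lab n U bs) :
    numClasses (Setoid.ker lab) = bs.length := by
  classical
  unfold numClasses
  rw [Nat.card_congr (Setoid.quotientKerEquivRange lab)]
  have : Set.range lab = ((bs.map Prod.fst).toFinset : Set ℕ) := by
    ext r
    rw [Set.mem_range, Finset.mem_coe, List.mem_toFinset]
    constructor
    · rintro ⟨j, rfl⟩; exact h.lab_mem j j.2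
    · intro hr
      rw [List.mem_map] at hr
      obtain ⟨b, hb, rfl⟩ := hr
      obtain ⟨r, _, _, h3⟩ := h.rep b hb
      exact ⟨r, h3⟩
  rw [this, Nat.card_coe_set_eq, Set.ncard_coe_finset,
    List.toFinset_card_of_nodup h.nodup, List.length_map]

theorem nontrivial_iff {up : ℕ → ℕ} (hup : ∀ a b : Fin n, a ≠ b → up a ≠ up b)
    {lab : Fin n → ℕ} {U : ℕ} {bs : List (ℕ × ℕ)} (h : Inv n up lab n U bs) :
    NonTrivial (Setoid.ker lab) ↔ 2 ≤ (bs.filter (fun b => b.2 != 0)).length := by
  classical
  have hnd : bs.Nodup := List.Nodup.of_map _ h.nodup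
  have hlen : (bs.filter (fun b => b.2 != 0)).length =
      (bs.filter (fun b => b.2 != 0)).toFinset.card :=
    (List.toFinset_card_of_nodup (hnd.filter _)).symm
  rw [hlen]
  have hone : 2 ≤ (bs.filter (fun b => b.2 != 0)).toFinset.card ↔
      1 < (bs.filter (fun b => b.2 != 0)).toFinset.card := Iff.rfl
  rw [hone, Finset.one_lt_card]
  have big : ∀ b ∈ bs, ∀ a c : Fin n, a ≠ c → lab a = b.1 → lab c = b.1 → b.2 ≠ 0 := by
    intro b hb a c hac ha hc
    obtain ⟨r, h1, h2, h3⟩ := h.rep b hb
    rw [ne_zero_iff]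
    have hx : ∃ x : Fin n, lab x = b.1 ∧ x ≠ r := by
      by_cases e : a = r
      · exact ⟨c, hc, fun e' => hac (e.trans e'.symm)⟩
      · exact ⟨a, ha, e⟩
    obtain ⟨x, hx1, hx2⟩ := hx
    have hne : up x ^^^ up r ≠ 0 := by
      intro e
      exact hup x r hx2 (Nat.xor_eq_zero_iff.mp e)
    obtain ⟨v, hv⟩ := ne_zero_iff.mp hne
    refine ⟨v, (h.cut b hb v).mpr ⟨x, x.2, hx1, ?_⟩⟩
    rw [← h1]; exact hv
  constructor
  · rintro ⟨a, b, c, d, hab, hcd, h1, h2, h3⟩
    rw [ker_rel] at h1 h2 h3
    have ha := h.lab_mem a a.2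
    have hc := h.lab_mem c c.2
    rw [List.mem_map] at ha hc
    obtain ⟨x, hx, hxa⟩ := ha
    obtain ⟨y, hy, hyc⟩ := hc
    refine ⟨x, ?_, y, ?_, ?_⟩
    · rw [List.mem_toFinset, List.mem_filter]
      exact ⟨hx, by simpa using big x hx a b hab hxa.symm (by rw [← h1, hxa])⟩
    · rw [List.mem_toFinset, List.mem_filter]
      exact ⟨hy, by simpa using big y hy c d hcd hyc.symm (by rw [← h2, hyc])⟩
    · intro e
      apply h3
      rw [← hxa, ← hyc, e]
  · rintro ⟨x, hx, y, hy, hxy⟩
    rw [List.mem_toFinset, List.mem_filter] at hx hy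
    obtain ⟨hx1, hx2⟩ := hx
    obtain ⟨hy1, hy2⟩ := hy
    have get : ∀ b ∈ bs, b.2 ≠ 0 → ∃ a r : Fin n, a ≠ r ∧ lab a = b.1 ∧ lab r = b.1 := by
      intro b hb hb2
      obtain ⟨v, hv⟩ := ne_zero_iff.mp hb2
      obtain ⟨j, hj1, hj2, hj3⟩ := (h.cut b hb v).mp hv
      obtain ⟨r, h1, h2, h3⟩ := h.rep b hb
      refine ⟨j, r, ?_, hj2, h3⟩
      intro e
      rw [← h1, e] at hj3
      exact sep_irrefl hj3
    obtain ⟨a, r, h1, h2, h3⟩ := get x hx1 (by simpa using hx2)
    obtain ⟨c, r', h1', h2', h3'⟩ := get y hy1 (by simpa using hy2)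
    refine ⟨a, r, c, r', h1, h1', by rw [ker_rel, h2, h3], by rw [ker_rel, h2', h3'], ?_⟩
    rw [ker_rel, h2, h2']
    intro e
    exact hxy (List.inj_on_of_nodup_map h.nodup hx1 hy1 e)

theorem final_iff {up : ℕ → ℕ} (hup : ∀ a b : Fin n, a ≠ b → up a ≠ up b) {MT MF l : ℕ}
    {lab : Fin n → ℕ} {U : ℕ} {bs : List (ℕ × ℕ)} (h : Inv n up lab n U bs) :
    Wanted up MT MF l (Setoid.ker lab) ↔ finalOK up MT MF l U bs = true := by
  unfold Wanted finalOK
  rw [classes_eq h, nontrivial_iff hup h, conv_iff h, conv_iff h]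
  simp only [Bool.and_eq_true, beq_iff_eq, decide_eq_true_eq, List.all_eq_true, Bool.or_eq_true]
  constructor
  · rintro ⟨h1, h2, h3, h4⟩
    refine ⟨⟨h3, h4⟩, fun b hb b' hb' => ?_⟩
    rcases Nat.lt_or_ge b.1 b'.1 with hlt | hge
    · right
      rw [sepOK_iff]
      exact ⟨h1 b hb b' hb' hlt, h2 b hb b' hb' hlt⟩
    · left; exact hge
  · rintro ⟨⟨h3, h4⟩, h5⟩
    refine ⟨fun b hb b' hb' hlt => ?_, fun b hb b' hb' hlt => ?_, h3, h4⟩
    · rcases h5 b hb b' hb' with g | g
      · omega
      · exact (sepOK_iff.mp g).1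
    · rcases h5 b hb b' hb' with g | g
      · omega
      · exact (sepOK_iff.mp g).2

theorem S_final {P : Setoid (Fin n) → Prop} {lab : Fin n → ℕ} (s : Setoid (Fin n)) :
    s ∈ S P lab n ↔ P s ∧ s = Setoid.ker lab := by
  constructor
  · rintro ⟨h1, h2⟩
    refine ⟨h1, Setoid.ext fun a b => ?_⟩
    exact h2 a b a.2 b.2
  · rintro ⟨h1, h2⟩
    refine ⟨h1, fun a b _ _ => ?_⟩
    rw [h2]
    exact ker_rel

theorem joinAll_eq {up : ℕ → ℕ} {i U : ℕ} (g : ℕ → List (ℕ × ℕ) → ℕ) (N : ℕ → ℕ)
    (whole : List (ℕ × ℕ)) : ∀ (post pre : List (ℕ × ℕ)), whole = pre ++ post →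
    (∀ (pre post : List (ℕ × ℕ)) (b : ℕ × ℕ), whole = pre ++ b :: post →
      (if (b.2 ||| (up i ^^^ up b.1)) &&& (U ^^^ b.2) = 0 then
        g (U ||| (b.2 ||| (up i ^^^ up b.1))) (pre ++ (b.1, b.2 ||| (up i ^^^ up b.1)) :: post)
        else 0) = N b.1) →
    joinAll g up i U pre post = (post.map (fun b => N b.1)).sum := by
  intro post
  induction post with
  | nil => intro pre _ _; simp [joinAll]
  | cons b post ih =>
    intro pre hw hall
    rw [joinAll, List.map_cons, List.sum_cons, hall pre post b hw]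
    congr 1
    exact ih (pre ++ [b]) (by rw [hw]; simp) hall

theorem go_eq {up : ℕ → ℕ} {MT MF l : ℕ} (hup : ∀ a b : Fin n, a ≠ b → up a ≠ up b)
    (hNC : ∀ s : Setoid (Fin n), Wanted up MT MF l s → NC up s) :
    ∀ (f i U : ℕ) (bs : List (ℕ × ℕ)) (lab : Fin n → ℕ), i + f = n → Inv n up lab i U bs →
      go up MT MF l f i U bs = (S (Wanted up MT MF l) lab i).ncard := by
  intro f
  induction f with
  | zero =>
    intro i U bs lab hi h
    have hi' : i = n := by omega
    subst hi'
    rw [go]
    by_cases hw : Wanted up MT MF l (Setoid.ker lab)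
    · rw [if_pos ((final_iff hup h).mp hw)]
      have : S (Wanted up MT MF l) lab i = {Setoid.ker lab} := by
        ext s
        rw [S_final, Set.mem_singleton_iff]
        constructor
        · exact fun h => h.2
        · intro e; rw [e]; exact ⟨hw, rfl⟩
      rw [this, Set.ncard_singleton]
    · rw [if_neg (fun e => hw ((final_iff hup h).mpr e))]
      have : S (Wanted up MT MF l) lab i = ∅ := by
        rw [Set.eq_empty_iff_forall_notMem]
        intro s hs
        rw [S_final] at hs
        exact hw (hs.2 ▸ hs.1)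
      rw [this, Set.ncard_empty]
  | succ f ih =>
    intro i U bs lab hi h
    have hin : i < n := by omega
    rw [go]
    by_cases hprune : bs.length + (f + 1) < l
    · rw [if_pos hprune]
      symm
      have : S (Wanted up MT MF l) lab i = ∅ := by
        rw [Set.eq_empty_iff_forall_notMem]
        intro s hs
        have h1 := classes_le h hs
        have h2 : numClasses s = l := hs.1.2.2.1
        omega
      rw [this, Set.ncard_empty]
    rw [if_neg hprune, S_split h hin]
    congr 1
    · by_cases hlen : bs.length < l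
      · rw [if_pos hlen]
        exact ih (i + 1) U _ _ (by omega) (inv_new h hin)
      · rw [if_neg hlen]
        symm
        have : S (Wanted up MT MF l) (Function.update lab ⟨i, hin⟩ i) (i + 1) = ∅ := by
          rw [Set.eq_empty_iff_forall_notMem]
          intro s hs
          have h1 := length_le_classes (inv_new h hin) hs
          rw [List.length_append] at h1
          have h2 : numClasses s = l := hs.1.2.2.1
          simp at h1
          omega
        rw [this, Set.ncard_empty]
    · apply joinAll_eq _ (fun r => (S (Wanted up MT MF l) (Function.update lab ⟨i, hin⟩ r) (i + 1)).ncard)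
        bs bs [] (by simp)
      intro pre post b hw
      by_cases htest : (b.2 ||| (up i ^^^ up b.1)) &&& (U ^^^ b.2) = 0
      · rw [if_pos htest]
        rw [hw] at h
        exact ih (i + 1) _ _ _ (by omega) (inv_join h hin htest)
      · rw [if_neg htest, join_empty hNC h (by rw [hw]; simp) hin htest, Set.ncard_empty]

theorem count_eq {up : ℕ → ℕ} {MT MF l : ℕ} (hup : ∀ a b : Fin n, a ≠ b → up a ≠ up b)
    (hNC : ∀ s : Setoid (Fin n), Wanted up MT MF l s → NC up s) :
    ({s : Setoid (Fin n) | Wanted up MT MF l s}).ncard = go up MT MF l n 0 0 [] := by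
  rw [go_eq hup hNC n 0 0 [] (fun _ => 0) (by omega) ⟨by simp, by simp, by simp, by simp, by simp,
    by simp⟩]
  congr 1
  ext s
  simp [S]

end Pool.Agent.Work.MP_8b9f13_co
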