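import Mathlib

/-! Semilabelled binary trees, the partitions they display, and common partition counts. -/

namespace Pool.Agent.Work.MP_8b9f13_co

/-- A semilabelled binary tree of size `n`: a finite tree all of whose vertices have degree one or
three and whose vertices of degree one (leaves) are labelled bijectively by `Fin n`. -/
structure SBTree (n : ℕ) where
  V : Type
  finite : Finite V
  graph : SimpleGraph V
  isTree : graph.IsTree
  degrees : ∀ v, (graph.neighborSet v).ncard = 1 ∨ (graph.neighborSet v).ncard = 3
  leaf : Fin n → V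
  leaf_injective : Function.Injective leaf
  leaf_iff : ∀ v, (graph.neighborSet v).ncard = 1 ↔ ∃ i, leaf i = v

/-- The partitions (equivalence relations) of the label set obtained by deleting a set of edges and
putting two labels in one class when their leaves lie in one component. -/
def partitions {n : ℕ} (T : SBTree n) : Set (Setoid (Fin n)) :=
  {s | ∃ D : Set (Sym2 T.V), D ⊆ T.graph.edgeSet ∧
    ∀ i j, s.r i j ↔ (T.graph.deleteEdges D).Reachable (T.leaf i) (T.leaf j)}

/-- The number of classes of a partition. -/
noncomputable def numClasses {n : ℕ} (s : Setoid (Fin n)) : ℕ := Nat.card (Quotient s)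

/-- The partition has at least two classes of size at least two. -/
def NonTrivial {n : ℕ} (s : Setoid (Fin n)) : Prop :=
  ∃ a b c d : Fin n, a ≠ b ∧ c ≠ d ∧ s.r a b ∧ s.r c d ∧ ¬ s.r a c

/-- `a_k(T, F)`: the number of non-trivial common partitions with exactly `k` classes. -/
noncomputable def common {n : ℕ} (T F : SBTree n) (k : ℕ) : ℕ :=
  Set.ncard {s : Setoid (Fin n) | s ∈ partitions T ∧ s ∈ partitions F ∧ numClasses s = k ∧
    NonTrivial s}

/-- The sequence `a 1, …, a n` is unimodal. -/
def IsUnimodal (n : ℕ) (a : ℕ → ℕ) : Prop :=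
  ∃ m, 1 ≤ m ∧ m ≤ n ∧ (∀ k, 1 ≤ k → k < m → a k ≤ a (k + 1)) ∧
    (∀ k, m ≤ k → k < n → a (k + 1) ≤ a k)

/-- The sequence `a 1, …, a n` is log-concave. -/
def IsLogConcave (n : ℕ) (a : ℕ → ℕ) : Prop :=
  ∀ k, 1 < k → k < n → a (k - 1) * a (k + 1) ≤ a k ^ 2

end Pool.Agent.Work.MP_8b9f13_co
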