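import Pool.Agent.Work.MP_8b9f13_co.Tree

/-! A concrete pair of semilabelled binary trees of size 12. -/

namespace Pool.Agent.Work.MP_8b9f13_co.Ex12

open Finset Pool.Agent.Work.MP_8b9f13_co

def parT (v : Fin (21 + 1)) : Fin (21 + 1) :=
  ([0, 0, 0, 0, 1, 1, 2, 2, 3, 3, 5, 5, 6, 6, 8, 8, 9, 9, 14, 14, 15, 15] : List (Fin (21 + 1))).getD v.val 0

def leafT (i : Fin 12) : Fin (21 + 1) :=
  ([18, 12, 10, 4, 20, 19, 13, 7, 11, 16, 21, 17] : List (Fin (21 + 1))).getD i.val 0

def ancT : List ℕ := [1, 3, 5, 9, 19, 35, 69, 133, 265, 521, 1059, 2083, 4165, 8261, 16649, 33033, 66057, 131593, 278793, 540937, 1081609, 2130185]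

def belT (v u : Fin (21 + 1)) : Bool := (ancT.getD u.val 0).testBit v.val

def parF (v : Fin (21 + 1)) : Fin (21 + 1) :=
  ([0, 0, 0, 0, 1, 1, 2, 2, 3, 3, 4, 4, 5, 5, 6, 6, 7, 7, 8, 8, 9, 9] : List (Fin (21 + 1))).getD v.val 0

def leafF (i : Fin 12) : Fin (21 + 1) :=
  ([21, 16, 18, 15, 11, 19, 12, 20, 10, 13, 14, 17] : List (Fin (21 + 1))).getD i.val 0

def ancF : List ℕ := [1, 3, 5, 9, 19, 35, 69, 133, 265, 521, 1043, 2067, 4131, 8227, 16453, 32837, 65669, 131205, 262409, 524553, 1049097, 2097673]

def belF (v u : Fin (21 + 1)) : Bool := (ancF.getD u.val 0).testBit v.val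

def up (i : ℕ) : ℕ := ([8798274339080, 275431559236, 1100618925090, 137724166162, 8666513672, 2200131092744, 17322483780, 4400227549316, 4370466850, 34502410760, 69006819592, 550309593608] : List ℕ).getD i 0

theorem hparT : ∀ v, v ≠ 0 → parT v < v := by decide +kernel

theorem belowT : Below parT belT where
  step := by decide +kernel
  self := by decide +kernel
  le := by decide +kernel

theorem injT : Function.Injective leafT := by
  intro a b h
  revert a b
  decide +kernel

def adjT (u v : Fin (21 + 1)) : Bool :=
  (u != v) && (((u != 0) && (parT u == v)) || ((v != 0) && (parT v == u)))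

theorem nbrT (u : Fin (21 + 1)) : ((pgraph parT).neighborSet u).ncard =
    (univ.filter (fun v => adjT u v = true)).card := by
  rw [← Set.ncard_coe_finset]
  congr 1
  ext v
  simp [pgraph, adjT, SimpleGraph.mem_neighborSet]

theorem degT (v : Fin (21 + 1)) : ((pgraph parT).neighborSet v).ncard = 1 ∨
    ((pgraph parT).neighborSet v).ncard = 3 := by
  rw [nbrT]
  revert v
  decide +kernel

theorem lfT (v : Fin (21 + 1)) : ((pgraph parT).neighborSet v).ncard = 1 ↔
    ∃ i, leafT i = v := by
  rw [nbrT]
  revert v
  decide +kernel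

/-- the tree `T` -/
def treeT : SBTree 12 := ptree parT hparT leafT injT degT lfT

theorem upT : ∀ (v : Fin (21 + 1)) (i : Fin 12), v ≠ 0 →
    (up i).testBit (0 + v.val) = belT v (leafT i) := by decide +kernel

theorem hparF : ∀ v, v ≠ 0 → parF v < v := by decide +kernel

theorem belowF : Below parF belF where
  step := by decide +kernel
  self := by decide +kernel
  le := by decide +kernel

theorem injF : Function.Injective leafF := by
  intro a b h
  revert a b
  decide +kernel

def adjF (u v : Fin (21 + 1)) : Bool :=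
  (u != v) && (((u != 0) && (parF u == v)) || ((v != 0) && (parF v == u)))

theorem nbrF (u : Fin (21 + 1)) : ((pgraph parF).neighborSet u).ncard =
    (univ.filter (fun v => adjF u v = true)).card := by
  rw [← Set.ncard_coe_finset]
  congr 1
  ext v
  simp [pgraph, adjF, SimpleGraph.mem_neighborSet]

theorem degF (v : Fin (21 + 1)) : ((pgraph parF).neighborSet v).ncard = 1 ∨
    ((pgraph parF).neighborSet v).ncard = 3 := by
  rw [nbrF]
  revert v
  decide +kernel

theorem lfF (v : Fin (21 + 1)) : ((pgraph parF).neighborSet v).ncard = 1 ↔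
    ∃ i, leafF i = v := by
  rw [nbrF]
  revert v
  decide +kernel

/-- the tree `F` -/
def treeF : SBTree 12 := ptree parF hparF leafF injF degF lfF

theorem upF : ∀ (v : Fin (21 + 1)) (i : Fin 12), v ≠ 0 →
    (up i).testBit (22 + v.val) = belF v (leafF i) := by decide +kernel

theorem up_inj : ∀ a b : Fin 12, a ≠ b → up a ≠ up b := by decide +kernel

theorem up_mask : ∀ a : Fin 12, up a &&& (bits 21 0 ||| bits 21 22) = up a := by decide +kernel

theorem sep_range {v : ℕ} {a b : Fin 12} (h : Sep up v a b) :
    (bits 21 0).testBit v = true ∨ (bits 21 22).testBit v = true := by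
  have key : ∀ c : Fin 12, (up c).testBit v = true →
      (bits 21 0).testBit v = true ∨ (bits 21 22).testBit v = true := by
    intro c hc
    rw [← up_mask c, Nat.testBit_and, Bool.and_eq_true, Nat.testBit_or, Bool.or_eq_true] at hc
    exact hc.2
  rw [sep_iff] at h
  cases e : (up a).testBit v
  · rw [e] at h
    exact key b (by simpa using h.symm)
  · exact key a e

theorem nc {l : ℕ} (s : Setoid (Fin 12)) (h : Wanted up (bits 21 0) (bits 21 22) l s) : NC up s := by
  intro a b c d hab hcd hac v hv
  rcases sep_range hv.1 with g | g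
  · exact nc_of_conv hparT belowT upT h.1 a b c d hab hcd hac v g hv
  · exact nc_of_conv hparF belowF upF h.2.1 a b c d hab hcd hac v g hv

theorem common_eq (l : ℕ) : common treeT treeF l =
    go up (bits 21 0) (bits 21 22) l 12 0 0 [] := by
  rw [← count_eq up_inj (fun s hs => nc s hs)]
  unfold common Wanted
  congr 1
  ext s
  simp only [Set.mem_ofPred_eq]
  rw [show treeT = ptree parT hparT leafT injT degT lfT from rfl,
    show treeF = ptree parF hparF leafF injF degF lfF from rfl,
    conv_iff_mem hparT belowT upT, conv_iff_mem hparF belowF upF]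

theorem val7 : common treeT treeF 7 = 56 := by
  rw [common_eq]
  decide +kernel

theorem val8 : common treeT treeF 8 = 83 := by
  rw [common_eq]
  decide +kernel

theorem val9 : common treeT treeF 9 = 126 := by
  rw [common_eq]
  decide +kernel

end Pool.Agent.Work.MP_8b9f13_co.Ex12
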