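import Pool.Agent.Work.MP_8b9f13_co.Count

/-! A version of the verified depth-first count that the kernel evaluates quickly. -/

namespace Pool.Agent.Work.MP_8b9f13_co

/-- lists of blocks: image of the representative, cut set -/
inductive Bl
  | nil : Bl
  | cons (r c : ℕ) (t : Bl) : Bl

noncomputable def joinK (k : ℕ → Bl → ℕ) (u U : ℕ) (bs : Bl) : (Bl → Bl) → ℕ :=
  Bl.rec (motive := fun _ => (Bl → Bl) → ℕ) (fun _ => 0)
    (fun r c t ih pre =>
      Nat.add
        ((fun d => Bool.rec (motive := fun _ => ℕ) 0 (k (Nat.lor U d) (pre (Bl.cons r d t)))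
            (Nat.beq (Nat.land d (Nat.xor U c)) 0)) (Nat.lor c (Nat.xor u r)))
        (ih (fun x => pre (Bl.cons r c x)))) bs

noncomputable def goK (fin : ℕ → Bl → ℕ) (us : List ℕ) : ℕ → Bl → ℕ → ℕ → ℕ :=
  List.rec (motive := fun _ => ℕ → Bl → ℕ → ℕ → ℕ) (fun U bs _ _ => fin U bs)
    (fun u _ ih U bs w j =>
      Nat.add
        (Nat.rec (motive := fun _ => ℕ) 0 (fun w' _ => ih U (Bl.cons u 0 bs) w' j) w)
        (Nat.rec (motive := fun _ => ℕ) 0
          (fun j' _ => joinK (fun U' bs' => ih U' bs' w j') u U bs (fun x => x)) j)) us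

/-- number of blocks with nonzero cut set -/
noncomputable def cntK (bs : Bl) : ℕ :=
  Bl.rec (motive := fun _ => ℕ) 0
    (fun _ c _ ih => Bool.rec (motive := fun _ => ℕ) (Nat.succ ih) ih (Nat.beq c 0)) bs

/-- all the blocks with nonzero cut set in `bs` are separated from `a` -/
noncomputable def pairK (MT MF U a : ℕ) (bs : Bl) : Bool :=
  Bl.rec (motive := fun _ => Bool) true
    (fun r c _ ih => Bool.rec (motive := fun _ => Bool)
      ((fun e => Bool.rec (motive := fun _ => Bool)
          (Bool.rec (motive := fun _ => Bool) ih false (Nat.beq (Nat.land e MF) 0)) false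
          (Nat.beq (Nat.land e MT) 0))
        ((fun d => Nat.xor d (Nat.land d U)) (Nat.xor a r))) ih (Nat.beq c 0)) bs

noncomputable def allK (MT MF U : ℕ) (bs : Bl) : Bool :=
  Bl.rec (motive := fun _ => Bool) true
    (fun r c t ih => Bool.rec (motive := fun _ => Bool)
      (Bool.rec (motive := fun _ => Bool) false ih (pairK MT MF U r t)) ih (Nat.beq c 0)) bs

noncomputable def finK (MT MF U : ℕ) (bs : Bl) : ℕ :=
  Bool.rec (motive := fun _ => ℕ) 0
    (Bool.rec (motive := fun _ => ℕ) 0 1 (allK MT MF U bs)) (Nat.ble 2 (cntK bs))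

/-- encoding of a block list -/
def enc (up : ℕ → ℕ) : List (ℕ × ℕ) → Bl
  | [] => Bl.nil
  | b :: bs => Bl.cons (up b.1) b.2 (enc up bs)

variable {n : ℕ}

theorem Inv.perm {up : ℕ → ℕ} {lab : Fin n → ℕ} {i U : ℕ} {bs bs' : List (ℕ × ℕ)}
    (h : Inv n up lab i U bs) (hp : bs.Perm bs') : Inv n up lab i U bs' where
  nodup := (hp.map Prod.fst).nodup_iff.mp h.nodup
  lab_mem j hj := (hp.map Prod.fst).mem_iff.mp (h.lab_mem j hj)
  rep b hb := h.rep b (hp.mem_iff.mpr hb)
  cut b hb := h.cut b (hp.mem_iff.mpr hb)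
  U_iff v := by
    rw [h.U_iff v]
    constructor
    · rintro ⟨b, hb, hv⟩; exact ⟨b, hp.mem_iff.mp hb, hv⟩
    · rintro ⟨b, hb, hv⟩; exact ⟨b, hp.mem_iff.mpr hb, hv⟩
  disj b hb b' hb' := h.disj b (hp.mem_iff.mpr hb) b' (hp.mem_iff.mpr hb')

theorem inv_new' {up : ℕ → ℕ} {lab : Fin n → ℕ} {i U : ℕ} {bs : List (ℕ × ℕ)}
    (h : Inv n up lab i U bs) (hi : i < n) :
    Inv n up (Function.update lab ⟨i, hi⟩ i) (i + 1) U ((i, 0) :: bs) :=
  (inv_new h hi).perm (List.perm_append_singleton _ _)

theorem beq_zero {x : ℕ} : Nat.beq x 0 = true ↔ x = 0 := by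
  cases x <;> simp [Nat.beq]

theorem boolrec {α : Type} (a b : α) (c : Bool) :
    Bool.rec (motive := fun _ => α) a b c = if c = true then b else a := by
  cases c <;> rfl

theorem boolrec0 {α : Type} (a b : α) (x : ℕ) :
    Bool.rec (motive := fun _ => α) a b (Nat.beq x 0) = if x = 0 then b else a := by
  rw [boolrec]
  by_cases h : x = 0
  · rw [if_pos h, if_pos (beq_zero.mpr h)]
  · rw [if_neg h, if_neg (fun g => h (beq_zero.mp g))]

theorem cntK_eq {up : ℕ → ℕ} (bs : List (ℕ × ℕ)) :
    cntK (enc up bs) = (bs.filter (fun b => b.2 != 0)).length := by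
  induction bs with
  | nil => rfl
  | cons b bs ih =>
    show Bool.rec (motive := fun _ => ℕ) (Nat.succ (cntK (enc up bs))) (cntK (enc up bs))
      (Nat.beq b.2 0) = _
    rw [boolrec0, ih, List.filter_cons]
    by_cases h : b.2 = 0
    · simp [h]
    · simp [h]

theorem pairK_iff {up : ℕ → ℕ} {MT MF U a : ℕ} (bs : List (ℕ × ℕ)) :
    pairK MT MF U (up a) (enc up bs) = true ↔
      ∀ b ∈ bs, b.2 ≠ 0 → sepOK up MT MF U a b.1 = true := by
  induction bs with
  | nil => simp [enc, pairK]
  | cons b bs ih =>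
    show Bool.rec (motive := fun _ => Bool)
      ((fun e => Bool.rec (motive := fun _ => Bool)
          (Bool.rec (motive := fun _ => Bool) (pairK MT MF U (up a) (enc up bs)) false
            (Nat.beq (Nat.land e MF) 0)) false
          (Nat.beq (Nat.land e MT) 0))
        ((fun d => Nat.xor d (Nat.land d U)) (Nat.xor (up a) (up b.1))))
        (pairK MT MF U (up a) (enc up bs)) (Nat.beq b.2 0) = true ↔ _
    simp only [boolrec0]
    rw [List.forall_mem_cons, ← ih]
    have e1 : ∀ x y, Nat.xor x y = x ^^^ y := fun _ _ => rfl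
    have e2 : ∀ x y, Nat.land x y = x &&& y := fun _ _ => rfl
    simp only [e1, e2]
    unfold sepOK
    simp only [Bool.and_eq_true, bne_iff_ne]
    by_cases h : b.2 = 0
    · simp [h]
    · rw [if_neg h]
      by_cases h1 : ((up a ^^^ up b.1) ^^^ ((up a ^^^ up b.1) &&& U)) &&& MT = 0
      · simp [h1, h]
      · rw [if_neg h1]
        by_cases h2 : ((up a ^^^ up b.1) ^^^ ((up a ^^^ up b.1) &&& U)) &&& MF = 0
        · simp [h2, h]
        · rw [if_neg h2]
          simp [h1, h2]

theorem allK_iff {up : ℕ → ℕ} {MT MF U : ℕ} (bs : List (ℕ × ℕ)) :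
    allK MT MF U (enc up bs) = true ↔
      bs.Pairwise (fun b b' => b.2 ≠ 0 → b'.2 ≠ 0 → sepOK up MT MF U b.1 b'.1 = true) := by
  induction bs with
  | nil => simp [enc, allK]
  | cons b bs ih =>
    show Bool.rec (motive := fun _ => Bool)
      (Bool.rec (motive := fun _ => Bool) false (allK MT MF U (enc up bs))
        (pairK MT MF U (up b.1) (enc up bs))) (allK MT MF U (enc up bs)) (Nat.beq b.2 0) = true ↔ _
    rw [boolrec0, boolrec]
    rw [List.pairwise_cons, ← ih]
    by_cases h : b.2 = 0
    · simp [h]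
    · rw [if_neg h]
      by_cases h1 : pairK MT MF U (up b.1) (enc up bs) = true
      · rw [if_pos h1]
        rw [pairK_iff] at h1
        constructor
        · intro g
          exact ⟨fun b' hb' _ hb2 => h1 b' hb' hb2, g⟩
        · intro g; exact g.2
      · rw [if_neg h1]
        rw [pairK_iff] at h1
        constructor
        · intro g; exact absurd g (by simp)
        · intro g
          exact absurd (fun b' hb' hb2 => g.1 b' hb' h hb2) h1

theorem sepOK_comm {up : ℕ → ℕ} {MT MF U a b : ℕ} :
    sepOK up MT MF U a b = sepOK up MT MF U b a := by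
  unfold sepOK
  rw [Nat.xor_comm (up a)]

/-- each label has a pendant bit -/
def Pend (n : ℕ) (up : ℕ → ℕ) (M : ℕ) : Prop :=
  ∀ a : Fin n, ∃ v, M.testBit v = true ∧ ∀ b : Fin n, b ≠ a → Sep up v a b

theorem sep_single {up : ℕ → ℕ} {M : ℕ} (hM : Pend n up M)
    {lab : Fin n → ℕ} {U : ℕ} {bs : List (ℕ × ℕ)} (h : Inv n up lab n U bs)
    {b : ℕ × ℕ} (hup : ∀ a b : Fin n, a ≠ b → up a ≠ up b) (hb : b ∈ bs) (hb0 : b.2 = 0) :
    ∃ v, M.testBit v = true ∧ U.testBit v = false ∧ ∀ b' ∈ bs, b'.1 ≠ b.1 → Sep up v b.1 b'.1 := by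
  obtain ⟨r, h1, h2, h3⟩ := h.rep b hb
  obtain ⟨v, hv1, hv2⟩ := hM r
  have hsing : ∀ x : Fin n, lab x = b.1 → x = r := by
    intro x hx
    by_contra hne
    have hne' : up x ^^^ up r ≠ 0 := by
      intro e
      exact hup x r hne (Nat.xor_eq_zero_iff.mp e)
    obtain ⟨w, hw⟩ := ne_zero_iff.mp hne'
    have : b.2.testBit w = true := (h.cut b hb w).mpr ⟨x, x.2, hx, by
      rw [← h1]; exact hw⟩
    rw [hb0] at this
    simp at this
  refine ⟨v, hv1, ?_, ?_⟩
  · by_contra hc
    have hc' : U.testBit v = true := by simpa using hc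
    obtain ⟨b', hb', hv'⟩ := (h.U_iff v).mp hc'
    obtain ⟨j, hj1, hj2, hj3⟩ := (h.cut b' hb' v).mp hv'
    obtain ⟨r', h1', h2', h3'⟩ := h.rep b' hb'
    have hne : b'.1 ≠ b.1 := by
      intro e
      have : b' = b := List.inj_on_of_nodup_map h.nodup hb' hb e
      rw [this, hb0] at hv'
      simp at hv'
    have a1 : j ≠ r := by
      intro e; rw [e, h3] at hj2; exact hne hj2.symm
    have a2 : r' ≠ r := by
      intro e; rw [e, h3] at h3'; exact hne h3'.symm
    have s1 := hv2 j a1
    have s2 := hv2 r' a2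
    rw [← h1'] at hj3
    rw [sep_iff] at s1 s2 hj3
    revert s1 s2 hj3
    cases (up r.val).testBit v <;> cases (up j.val).testBit v <;> cases (up r'.val).testBit v <;> simp
  · intro b' hb' hne
    obtain ⟨r', h1', h2', h3'⟩ := h.rep b' hb'
    rw [← h1, ← h1']
    apply hv2
    intro e
    rw [e, h3] at h3'
    exact hne h3'.symm

theorem finK_eq {up : ℕ → ℕ} {MT MF : ℕ} (hup : ∀ a b : Fin n, a ≠ b → up a ≠ up b)
    (hMT : Pend n up MT) (hMF : Pend n up MF)
    {lab : Fin n → ℕ} {U : ℕ} {bs : List (ℕ × ℕ)} (h : Inv n up lab n U bs) :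
    finK MT MF U (enc up bs) = if finalOK up MT MF bs.length U bs = true then 1 else 0 := by
  unfold finK
  rw [boolrec, boolrec, cntK_eq]
  have e0 : (Nat.ble 2 (bs.filter (fun b => b.2 != 0)).length = true) ↔
      2 ≤ (bs.filter (fun b => b.2 != 0)).length := by rw [Nat.ble_eq]
  have key : allK MT MF U (enc up bs) = true ↔
      bs.all (fun b => bs.all (fun b' => b'.1 ≤ b.1 || sepOK up MT MF U b.1 b'.1)) = true := by
    rw [allK_iff]
    simp only [List.all_eq_true, Bool.or_eq_true, decide_eq_true_eq]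
    have hnd : bs.Nodup := List.Nodup.of_map _ h.nodup
    constructor
    · intro hp b hb b' hb'
      rcases Nat.lt_or_ge b.1 b'.1 with hlt | hge
      · right
        by_cases c1 : b.2 = 0
        · obtain ⟨v, v1, v2, v3⟩ := sep_single hMT h hup hb c1
          obtain ⟨w, w1, w2, w3⟩ := sep_single hMF h hup hb c1
          rw [sepOK_iff]
          exact ⟨⟨v, v1, v2, v3 b' hb' (by omega)⟩, ⟨w, w1, w2, w3 b' hb' (by omega)⟩⟩
        by_cases c2 : b'.2 = 0
        · obtain ⟨v, v1, v2, v3⟩ := sep_single hMT h hup hb' c2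
          obtain ⟨w, w1, w2, w3⟩ := sep_single hMF h hup hb' c2
          rw [sepOK_comm, sepOK_iff]
          exact ⟨⟨v, v1, v2, v3 b hb (by omega)⟩, ⟨w, w1, w2, w3 b hb (by omega)⟩⟩
        have : Std.Symm (fun b b' : ℕ × ℕ => b.2 ≠ 0 → b'.2 ≠ 0 →
            sepOK up MT MF U b.1 b'.1 = true) :=
          ⟨fun x y hxy h1 h2 => by rw [sepOK_comm]; exact hxy h2 h1⟩
        exact List.Pairwise.forall hp hb hb'
          (by intro e; rw [e] at hlt; exact lt_irrefl _ hlt) c1 c2
      · left; exact hge
    · intro hall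
      apply List.Nodup.pairwise_of_forall_ne hnd
      intro b hb b' hb' hne _ _
      have hne1 : b.1 ≠ b'.1 := by
        intro e
        exact hne (List.inj_on_of_nodup_map h.nodup hb hb' e)
      rcases lt_or_gt_of_ne hne1 with hlt | hgt
      · rcases hall b hb b' hb' with g | g
        · omega
        · exact g
      · rcases hall b' hb' b hb with g | g
        · omega
        · rw [sepOK_comm]; exact g
  unfold finalOK
  simp only [beq_self_eq_true, Bool.true_and, Bool.and_eq_true, decide_eq_true_eq]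
  by_cases c1 : 2 ≤ (bs.filter (fun b => b.2 != 0)).length
  · rw [if_pos (e0.mpr c1)]
    by_cases c2 : allK MT MF U (enc up bs) = true
    · rw [if_pos c2, if_pos ⟨c1, key.mp c2⟩]
    · rw [if_neg c2, if_neg (fun g => c2 (key.mpr g.2))]
  · rw [if_neg (fun g => c1 (e0.mp g)), if_neg (fun g => c1 g.1)]

theorem joinK_eq {up : ℕ → ℕ} {i U : ℕ} (k : ℕ → Bl → ℕ) (N : ℕ → ℕ)
    (whole : List (ℕ × ℕ)) : ∀ (post pre : List (ℕ × ℕ)) (p : Bl → Bl), whole = pre ++ post →
    (∀ l, p (enc up l) = enc up (pre ++ l)) →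
    (∀ (pre post : List (ℕ × ℕ)) (b : ℕ × ℕ), whole = pre ++ b :: post →
      (if (b.2 ||| (up i ^^^ up b.1)) &&& (U ^^^ b.2) = 0 then
        k (U ||| (b.2 ||| (up i ^^^ up b.1)))
          (enc up (pre ++ (b.1, b.2 ||| (up i ^^^ up b.1)) :: post))
        else 0) = N b.1) →
    joinK k (up i) U (enc up post) p = (post.map (fun b => N b.1)).sum := by
  intro post
  induction post with
  | nil => intro pre p _ _ _; rfl
  | cons b post ih =>
    intro pre p hw hp hall
    have e1 : joinK k (up i) U (enc up (b :: post)) p =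
      (Bool.rec (motive := fun _ => ℕ) 0 (k (U ||| (b.2 ||| (up i ^^^ up b.1)))
        (p (Bl.cons (up b.1) (b.2 ||| (up i ^^^ up b.1)) (enc up post))))
            (Nat.beq ((b.2 ||| (up i ^^^ up b.1)) &&& (U ^^^ b.2)) 0)) +
        joinK k (up i) U (enc up post) (fun x => p (Bl.cons (up b.1) b.2 x)) := rfl
    rw [e1, boolrec0, List.map_cons, List.sum_cons]
    have e2 : p (Bl.cons (up b.1) (b.2 ||| (up i ^^^ up b.1)) (enc up post)) =
        enc up (pre ++ (b.1, b.2 ||| (up i ^^^ up b.1)) :: post) :=
      hp ((b.1, b.2 ||| (up i ^^^ up b.1)) :: post)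
    rw [e2, hall pre post b hw]
    congr 1
    refine ih (pre ++ [b]) _ (by rw [hw]; simp) ?_ hall
    intro l
    have := hp (b :: l)
    rw [List.append_assoc]
    exact this

theorem goK_eq {up : ℕ → ℕ} {MT MF l : ℕ} (hup : ∀ a b : Fin n, a ≠ b → up a ≠ up b)
    (hMT : Pend n up MT) (hMF : Pend n up MF)
    (hNC : ∀ s : Setoid (Fin n), Wanted up MT MF l s → NC up s) :
    ∀ (f i U : ℕ) (bs : List (ℕ × ℕ)) (lab : Fin n → ℕ) (w j : ℕ), i + f = n →
      w + j = f → bs.length + w = l → Inv n up lab i U bs →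
      goK (finK MT MF) ((List.range' i f).map up) U (enc up bs) w j =
        (S (Wanted up MT MF l) lab i).ncard := by
  intro f
  induction f with
  | zero =>
    intro i U bs lab w j hi hwj hl h
    have hi' : i = n := by omega
    subst hi'
    have hw0 : w = 0 := by omega
    have hl' : bs.length = l := by omega
    show finK MT MF U (enc up bs) = _
    rw [finK_eq hup hMT hMF h, hl']
    by_cases hw : Wanted up MT MF l (Setoid.ker lab)
    · rw [if_pos ((final_iff hup h).mp hw)]
      have : S (Wanted up MT MF l) lab i = {Setoid.ker lab} := by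
        ext s
        rw [S_final, Set.mem_singleton_iff]
        constructor
        · exact fun h => h.2
        · intro e; rw [e]; exact ⟨hw, rfl⟩
      rw [this, Set.ncard_singleton]
    · rw [if_neg (fun e => hw ((final_iff hup h).mpr e))]
      have : S (Wanted up MT MF l) lab i = ∅ := by
        rw [Set.eq_empty_iff_forall_notMem]
        intro s hs
        rw [S_final] at hs
        exact hw (hs.2 ▸ hs.1)
      rw [this, Set.ncard_empty]
  | succ f ih =>
    intro i U bs lab w j hi hwj hl h
    have hin : i < n := by omega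
    have e1 : goK (finK MT MF) ((List.range' i (f + 1)).map up) U (enc up bs) w j =
      (Nat.rec (motive := fun _ => ℕ) 0 (fun w' _ =>
        goK (finK MT MF) ((List.range' (i + 1) f).map up) U (Bl.cons (up i) 0 (enc up bs)) w' j) w)
      + (Nat.rec (motive := fun _ => ℕ) 0
          (fun j' _ => joinK (fun U' bs' =>
            goK (finK MT MF) ((List.range' (i + 1) f).map up) U' bs' w j') (up i) U (enc up bs)
              (fun x => x)) j) := rfl
    rw [e1, S_split h hin]
    congr 1
    · cases w with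
      | zero =>
        show 0 = _
        symm
        have : S (Wanted up MT MF l) (Function.update lab ⟨i, hin⟩ i) (i + 1) = ∅ := by
          rw [Set.eq_empty_iff_forall_notMem]
          intro s hs
          have h1 := length_le_classes (inv_new' h hin) hs
          rw [List.length_cons] at h1
          have h2 : numClasses s = l := hs.1.2.2.1
          omega
        rw [this, Set.ncard_empty]
      | succ w =>
        exact ih (i + 1) U ((i, 0) :: bs) _ w j (by omega) (by omega)
          (by rw [List.length_cons]; omega) (inv_new' h hin)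
    · cases j with
      | zero =>
        show 0 = _
        symm
        apply List.sum_eq_zero
        intro x hx
        rw [List.mem_map] at hx
        obtain ⟨b, hb, rfl⟩ := hx
        have : S (Wanted up MT MF l) (Function.update lab ⟨i, hin⟩ b.1) (i + 1) = ∅ := by
          by_cases htest : (b.2 ||| (up i ^^^ up b.1)) &&& (U ^^^ b.2) = 0
          · obtain ⟨pre, post, hpp⟩ := List.append_of_mem hb
            rw [hpp] at h
            have hI := inv_join h hin htest
            rw [Set.eq_empty_iff_forall_notMem]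
            intro s hs
            have h1 := classes_le hI hs
            have h2 : numClasses s = l := hs.1.2.2.1
            rw [hpp] at hl
            simp only [List.length_append, List.length_cons] at h1 hl
            omega
          · exact join_empty hNC h hb hin htest
        rw [this, Set.ncard_empty]
      | succ j =>
        refine joinK_eq _ (fun r => (S (Wanted up MT MF l) (Function.update lab ⟨i, hin⟩ r)
          (i + 1)).ncard) bs bs [] _ (by simp) (fun l => by simp) ?_
        intro pre post b hw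
        by_cases htest : (b.2 ||| (up i ^^^ up b.1)) &&& (U ^^^ b.2) = 0
        · rw [if_pos htest]
          have hl' := hl
          rw [hw] at h hl'
          exact ih (i + 1) _ _ _ _ _ (by omega) (by omega)
            (by simp only [List.length_append, List.length_cons] at hl' ⊢; omega)
            (inv_join h hin htest)
        · rw [if_neg htest, join_empty hNC h (by rw [hw]; simp) hin htest, Set.ncard_empty]

theorem countK {up : ℕ → ℕ} {MT MF l : ℕ} (hup : ∀ a b : Fin n, a ≠ b → up a ≠ up b)
    (hMT : Pend n up MT) (hMF : Pend n up MF)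
    (hNC : ∀ s : Setoid (Fin n), Wanted up MT MF l s → NC up s) (j : ℕ) (hj : l + j = n) :
    ({s : Setoid (Fin n) | Wanted up MT MF l s}).ncard =
      goK (finK MT MF) ((List.range' 0 n).map up) 0 Bl.nil l j := by
  have := goK_eq hup hMT hMF hNC n 0 0 [] (fun _ => 0) l j (by omega) hj (by simp) ⟨by simp, by simp,
    by simp, by simp, by simp, by simp⟩
  rw [show enc up [] = Bl.nil from rfl] at this
  rw [this]
  congr 1
  ext s
  simp [S]

end Pool.Agent.Work.MP_8b9f13_co
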