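import Pool.Agent.Work.MP_8b9f13_co.Tree
import Pool.Agent.Work.MP_8b9f13_co.Fast

/-! A concrete pair of semilabelled binary trees of size 16. -/

namespace Pool.Agent.Work.MP_8b9f13_co.Ex16

open Finset Pool.Agent.Work.MP_8b9f13_co

def parT (v : Fin (29 + 1)) : Fin (29 + 1) :=
  ([0, 0, 0, 0, 1, 1, 2, 2, 3, 3, 4, 4, 5, 5, 8, 8, 9, 9, 10, 10, 16, 16, 18, 18, 20, 20, 21, 21, 23, 23] : List (Fin (29 + 1))).getD v.val 0

def leafT (i : Fin 16) : Fin (29 + 1) :=
  ([28, 26, 6, 22, 12, 19, 29, 7, 24, 25, 14, 15, 11, 17, 13, 27] : List (Fin (29 + 1))).getD i.val 0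

def ancT : List ℕ := [1, 3, 5, 9, 19, 35, 69, 133, 265, 521, 1043, 2067, 4131, 8227, 16649, 33033, 66057, 131593, 263187, 525331, 1114633, 2163209, 4457491, 8651795, 17891849, 34669065, 69272073, 136380937, 277087251, 545522707]

def belT (v u : Fin (29 + 1)) : Bool := (ancT.getD u.val 0).testBit v.val

def parF (v : Fin (29 + 1)) : Fin (29 + 1) :=
  ([0, 0, 0, 0, 1, 1, 2, 2, 3, 3, 5, 5, 6, 6, 7, 7, 8, 8, 11, 11, 12, 12, 13, 13, 20, 20, 21, 21, 27, 27] : List (Fin (29 + 1))).getD v.val 0

def leafF (i : Fin 16) : Fin (29 + 1) :=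
  ([23, 22, 28, 15, 19, 25, 17, 10, 9, 16, 18, 26, 4, 24, 29, 14] : List (Fin (29 + 1))).getD i.val 0

def ancF : List ℕ := [1, 3, 5, 9, 19, 35, 69, 133, 265, 521, 1059, 2083, 4165, 8261, 16517, 32901, 65801, 131337, 264227, 526371, 1052741, 2101317, 4202565, 8396869, 17829957, 34607173, 69210181, 136319045, 404754501, 673189957]

def belF (v u : Fin (29 + 1)) : Bool := (ancF.getD u.val 0).testBit v.val

def up (i : ℕ) : ℕ := ([9016068639294482, 4512468804108808, 434601835102208068, 35326110467090, 565185483903010, 37159167987287058, 141021501719570, 1136018849924, 558363640328, 70652246688264, 283710507204872, 74313864912601352, 19327354898, 19144769477411336, 722832211253927970, 17734056346120] : List ℕ).getD i 0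

theorem hparT : ∀ v, v ≠ 0 → parT v < v := by decide +kernel

theorem belowT : Below parT belT where
  step := by decide +kernel
  self := by decide +kernel
  le := by decide +kernel

theorem injT : Function.Injective leafT := by
  intro a b h
  revert a b
  decide +kernel

def adjT (u v : Fin (29 + 1)) : Bool :=
  (u != v) && (((u != 0) && (parT u == v)) || ((v != 0) && (parT v == u)))

theorem nbrT (u : Fin (29 + 1)) : ((pgraph parT).neighborSet u).ncard =
    (univ.filter (fun v => adjT u v = true)).card := by
  rw [← Set.ncard_coe_finset]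
  congr 1
  ext v
  simp [pgraph, adjT, SimpleGraph.mem_neighborSet]

theorem degT (v : Fin (29 + 1)) : ((pgraph parT).neighborSet v).ncard = 1 ∨
    ((pgraph parT).neighborSet v).ncard = 3 := by
  rw [nbrT]
  revert v
  decide +kernel

theorem lfT (v : Fin (29 + 1)) : ((pgraph parT).neighborSet v).ncard = 1 ↔
    ∃ i, leafT i = v := by
  rw [nbrT]
  revert v
  decide +kernel

/-- the tree `T` -/
def treeT : SBTree 16 := ptree parT hparT leafT injT degT lfT

theorem upT : ∀ (v : Fin (29 + 1)) (i : Fin 16), v ≠ 0 →
    (up i).testBit (0 + v.val) = belT v (leafT i) := by decide +kernel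

theorem hparF : ∀ v, v ≠ 0 → parF v < v := by decide +kernel

theorem belowF : Below parF belF where
  step := by decide +kernel
  self := by decide +kernel
  le := by decide +kernel

theorem injF : Function.Injective leafF := by
  intro a b h
  revert a b
  decide +kernel

def adjF (u v : Fin (29 + 1)) : Bool :=
  (u != v) && (((u != 0) && (parF u == v)) || ((v != 0) && (parF v == u)))

theorem nbrF (u : Fin (29 + 1)) : ((pgraph parF).neighborSet u).ncard =
    (univ.filter (fun v => adjF u v = true)).card := by
  rw [← Set.ncard_coe_finset]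
  congr 1
  ext v
  simp [pgraph, adjF, SimpleGraph.mem_neighborSet]

theorem degF (v : Fin (29 + 1)) : ((pgraph parF).neighborSet v).ncard = 1 ∨
    ((pgraph parF).neighborSet v).ncard = 3 := by
  rw [nbrF]
  revert v
  decide +kernel

theorem lfF (v : Fin (29 + 1)) : ((pgraph parF).neighborSet v).ncard = 1 ↔
    ∃ i, leafF i = v := by
  rw [nbrF]
  revert v
  decide +kernel

/-- the tree `F` -/
def treeF : SBTree 16 := ptree parF hparF leafF injF degF lfF

theorem upF : ∀ (v : Fin (29 + 1)) (i : Fin 16), v ≠ 0 →
    (up i).testBit (30 + v.val) = belF v (leafF i) := by decide +kernel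

theorem up_inj : ∀ a b : Fin 16, a ≠ b → up a ≠ up b := by decide +kernel

theorem up_mask : ∀ a : Fin 16, up a &&& (bits 29 0 ||| bits 29 30) = up a := by decide +kernel

theorem sep_range {v : ℕ} {a b : Fin 16} (h : Sep up v a b) :
    (bits 29 0).testBit v = true ∨ (bits 29 30).testBit v = true := by
  have key : ∀ c : Fin 16, (up c).testBit v = true →
      (bits 29 0).testBit v = true ∨ (bits 29 30).testBit v = true := by
    intro c hc
    rw [← up_mask c, Nat.testBit_and, Bool.and_eq_true, Nat.testBit_or, Bool.or_eq_true] at hc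
    exact hc.2
  rw [sep_iff] at h
  cases e : (up a).testBit v
  · rw [e] at h
    exact key b (by simpa using h.symm)
  · exact key a e

theorem nc {l : ℕ} (s : Setoid (Fin 16)) (h : Wanted up (bits 29 0) (bits 29 30) l s) : NC up s := by
  intro a b c d hab hcd hac v hv
  rcases sep_range hv.1 with g | g
  · exact nc_of_conv hparT belowT upT h.1 a b c d hab hcd hac v g hv
  · exact nc_of_conv hparF belowF upF h.2.1 a b c d hab hcd hac v g hv

def ups : List ℕ := [9016068639294482, 4512468804108808, 434601835102208068, 35326110467090, 565185483903010, 37159167987287058, 141021501719570, 1136018849924, 558363640328, 70652246688264, 283710507204872, 74313864912601352, 19327354898, 19144769477411336, 722832211253927970, 17734056346120]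

theorem ups_eq : (List.range' 0 16).map up = ups := by decide +kernel

/-- position of the pendant bit of each label -/
theorem pendT : Pend 16 up 1073741822 := by
  have key : ∀ a : Fin 16, (1073741822 : ℕ).testBit (leafT a).val = true ∧
      ∀ b : Fin 16, b ≠ a → (up a ^^^ up b).testBit (leafT a).val = true := by decide +kernel
  exact fun a => ⟨_, (key a).1, (key a).2⟩

theorem pendF : Pend 16 up 1152921502459363328 := by
  have key : ∀ a : Fin 16, (1152921502459363328 : ℕ).testBit (30 + (leafF a).val) = true ∧
      ∀ b : Fin 16, b ≠ a → (up a ^^^ up b).testBit (30 + (leafF a).val) = true := by decide +kernel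
  exact fun a => ⟨_, (key a).1, (key a).2⟩

theorem bitsT : bits 29 0 = 1073741822 := by decide +kernel

theorem bitsF : bits 29 30 = 1152921502459363328 := by decide +kernel

theorem common_eq (l j : ℕ) (hj : l + j = 16) : common treeT treeF l =
    goK (finK 1073741822 1152921502459363328) ups 0 Bl.nil l j := by
  rw [← ups_eq, ← countK up_inj pendT pendF (fun s hs => nc s (by rw [bitsT, bitsF]; exact hs)) j hj,
    ← bitsT, ← bitsF]
  unfold common Wanted
  congr 1
  ext s
  simp only [Set.mem_ofPred_eq]
  rw [show treeT = ptree parT hparT leafT injT degT lfT from rfl,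
    show treeF = ptree parF hparF leafF injF degF lfF from rfl,
    conv_iff_mem hparT belowT upT, conv_iff_mem hparF belowF upF]

theorem val10 : common treeT treeF 10 = 1832 := by
  rw [common_eq 10 6 rfl]
  decide +kernel

theorem val11 : common treeT treeF 11 = 1817 := by
  rw [common_eq 11 5 rfl]
  decide +kernel

theorem val12 : common treeT treeF 12 = 1830 := by
  rw [common_eq 12 4 rfl]
  decide +kernel

end Pool.Agent.Work.MP_8b9f13_co.Ex16
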