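import Pool.Agent.Work.MP_8b9f13_co.Count

/-! Trees given by parent pointers and the cut description of the partitions they display. -/

namespace Pool.Agent.Work.MP_8b9f13_co

open Finset

variable {N : ℕ}

/-- graph given by parent pointers, with root `0` -/
def pgraph (par : Fin (N + 1) → Fin (N + 1)) : SimpleGraph (Fin (N + 1)) where
  Adj u v := u ≠ v ∧ ((u ≠ 0 ∧ par u = v) ∨ (v ≠ 0 ∧ par v = u))
  symm := ⟨fun _ _ h => ⟨h.1.symm, h.2.symm⟩⟩
  loopless := ⟨fun _ h => h.1 rfl⟩

theorem edge_inj {par : Fin (N + 1) → Fin (N + 1)} (hpar : ∀ v, v ≠ 0 → par v < v)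
    {v w : Fin (N + 1)} (hv : v ≠ 0) (hw : w ≠ 0) (h : s(v, par v) = s(w, par w)) : v = w := by
  rw [Sym2.eq_iff] at h
  rcases h with ⟨h1, _⟩ | ⟨h1, h2⟩
  · exact h1
  · have a := hpar v hv
    have b := hpar w hw
    rw [h2] at a
    rw [← h1] at b
    exact absurd (a.trans b) (lt_irrefl _)

theorem adj_par {par : Fin (N + 1) → Fin (N + 1)} (hpar : ∀ v, v ≠ 0 → par v < v)
    {v : Fin (N + 1)} (hv : v ≠ 0) : (pgraph par).Adj v (par v) :=
  ⟨(hpar v hv).ne', Or.inl ⟨hv, rfl⟩⟩

theorem pgraph_isTree {par : Fin (N + 1) → Fin (N + 1)} (hpar : ∀ v, v ≠ 0 → par v < v) :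
    (pgraph par).IsTree := by
  classical
  rw [SimpleGraph.isTree_iff_connected_and_card]
  constructor
  · have hreach : ∀ m : ℕ, ∀ v : Fin (N + 1), v.val = m → (pgraph par).Reachable v 0 := by
      intro m
      induction m using Nat.strong_induction_on with
      | _ m ih =>
        intro v hv
        by_cases h0 : v = 0
        · rw [h0]
        · have h1 := hpar v h0
          exact (adj_par hpar h0).reachable.trans (ih (par v).val (by rw [← hv]; exact h1) _ rfl)
    have : Nonempty (Fin (N + 1)) := ⟨0⟩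
    exact SimpleGraph.Connected.mk
      (fun u v => (hreach _ u rfl).trans (hreach _ v rfl).symm)
  · have hb : Function.Bijective (fun v : {v : Fin (N + 1) // v ≠ 0} =>
        (⟨s(v.1, par v.1), (SimpleGraph.mem_edgeSet _).mpr (adj_par hpar v.2)⟩ :
          (pgraph par).edgeSet)) := by
      constructor
      · intro v w h
        have := congrArg Subtype.val h
        exact Subtype.ext (edge_inj hpar v.2 w.2 this)
      · rintro ⟨e, he⟩
        induction e using Sym2.ind with
        | _ u v =>
          rw [SimpleGraph.mem_edgeSet] at he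
          rcases he.2 with ⟨h1, h2⟩ | ⟨h1, h2⟩
          · exact ⟨⟨u, h1⟩, Subtype.ext (by simp only; rw [h2])⟩
          · exact ⟨⟨v, h1⟩, Subtype.ext (by simp only; rw [h2]; exact Sym2.eq_swap)⟩
    rw [← Nat.card_congr (Equiv.ofBijective _ hb), Nat.card_eq_fintype_card, Nat.card_eq_fintype_card,
      Fintype.card_subtype_compl]
    simp

/-- the properties of the relation `x lies at or below v` -/
structure Below (par : Fin (N + 1) → Fin (N + 1)) (bel : Fin (N + 1) → Fin (N + 1) → Bool) :
    Prop where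
  step : ∀ v u, u ≠ 0 → u ≠ v → bel v u = bel v (par u)
  self : ∀ v, bel v v = true
  le : ∀ v u, bel v u = true → v ≤ u

theorem reach_iff {par : Fin (N + 1) → Fin (N + 1)} (hpar : ∀ v, v ≠ 0 → par v < v)
    {bel : Fin (N + 1) → Fin (N + 1) → Bool} (hb : Below par bel) (D : Set (Sym2 (Fin (N + 1))))
    (u w : Fin (N + 1)) : ((pgraph par).deleteEdges D).Reachable u w ↔
      ∀ v, v ≠ 0 → s(v, par v) ∈ D → bel v u = bel v w := by
  constructor
  · rintro ⟨p⟩ v hv hD
    induction p with
    | nil => rfl
    | cons h _ ih =>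
      rw [← ih]
      rw [SimpleGraph.deleteEdges_adj] at h
      obtain ⟨⟨_, h1⟩, h2⟩ := h
      rcases h1 with ⟨g1, g2⟩ | ⟨g1, g2⟩
      · rw [← g2]
        apply hb.step v _ g1
        rintro rfl
        rw [← g2] at h2
        exact h2 hD
      · rw [← g2]
        symm
        apply hb.step v _ g1
        rintro rfl
        rw [← g2, Sym2.eq_swap] at h2
        exact h2 hD
  · have main : ∀ m : ℕ, ∀ u w : Fin (N + 1), u.val + w.val = m →
        (∀ v, v ≠ 0 → s(v, par v) ∈ D → bel v u = bel v w) →
        ((pgraph par).deleteEdges D).Reachable u w := by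
      intro m
      induction m using Nat.strong_induction_on with
      | _ m ih =>
        have half : ∀ u w : Fin (N + 1), u.val + w.val = m → w < u →
            (∀ v, v ≠ 0 → s(v, par v) ∈ D → bel v u = bel v w) →
            ((pgraph par).deleteEdges D).Reachable u w := by
          intro u w hm hlt hall
          have hu0 : u ≠ 0 := by
            rintro rfl
            exact absurd hlt (Fin.not_lt_zero _)
          have hDu : s(u, par u) ∉ D := by
            intro hD
            have h1 := hall u hu0 hD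
            rw [hb.self u] at h1
            exact absurd (hb.le u w h1.symm) (not_le.mpr hlt)
          have hp := hpar u hu0
          have hadj : ((pgraph par).deleteEdges D).Adj u (par u) := by
            rw [SimpleGraph.deleteEdges_adj]
            exact ⟨adj_par hpar hu0, hDu⟩
          refine hadj.reachable.trans (ih ((par u).val + w.val) ?_ (par u) w rfl ?_)
          · have : (par u).val < u.val := hp
            omega
          · intro v hv hD
            rw [← hall v hv hD]
            symm
            apply hb.step v u hu0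
            rintro rfl
            exact hDu hD
        intro u w hm hall
        rcases lt_trichotomy u w with h | h | h
        · exact (half w u (by omega) h (fun v hv hD => (hall v hv hD).symm)).symm
        · rw [h]
        · exact half u w hm h hall
    exact main _ u w rfl

variable {n : ℕ}

/-- the tree with given parent pointers and leaves -/
def ptree (par : Fin (N + 1) → Fin (N + 1)) (hpar : ∀ v, v ≠ 0 → par v < v)
    (leaf : Fin n → Fin (N + 1)) (hinj : Function.Injective leaf)
    (hdeg : ∀ v, ((pgraph par).neighborSet v).ncard = 1 ∨ ((pgraph par).neighborSet v).ncard = 3)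
    (hleaf : ∀ v, ((pgraph par).neighborSet v).ncard = 1 ↔ ∃ i, leaf i = v) : SBTree n where
  V := Fin (N + 1)
  finite := inferInstance
  graph := pgraph par
  isTree := pgraph_isTree hpar
  degrees := hdeg
  leaf := leaf
  leaf_injective := hinj
  leaf_iff := hleaf

theorem mem_partitions {par : Fin (N + 1) → Fin (N + 1)} (hpar : ∀ v, v ≠ 0 → par v < v)
    {bel : Fin (N + 1) → Fin (N + 1) → Bool} (hb : Below par bel)
    {leaf : Fin n → Fin (N + 1)} {hinj hdeg hleaf} (s : Setoid (Fin n)) :
    s ∈ partitions (ptree par hpar leaf hinj hdeg hleaf) ↔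
      ∀ a b : Fin n, ¬ s.r a b → ∃ v, v ≠ 0 ∧ (∀ c d, s.r c d → bel v (leaf c) = bel v (leaf d)) ∧
        bel v (leaf a) ≠ bel v (leaf b) := by
  have hun : s ∈ partitions (ptree par hpar leaf hinj hdeg hleaf) ↔
      ∃ D : Set (Sym2 (Fin (N + 1))), D ⊆ (pgraph par).edgeSet ∧
        ∀ i j, s.r i j ↔ ((pgraph par).deleteEdges D).Reachable (leaf i) (leaf j) := Iff.rfl
  rw [hun]
  have hr : ∀ (D : Set (Sym2 (Fin (N + 1)))) (i j : Fin n),
      ((pgraph par).deleteEdges D).Reachable (leaf i) (leaf j) ↔
      ∀ v, v ≠ 0 → s(v, par v) ∈ D → bel v (leaf i) = bel v (leaf j) :=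
    fun D i j => reach_iff hpar hb D (leaf i) (leaf j)
  constructor
  · rintro ⟨D, _, hD⟩ a b hab
    rw [hD, hr] at hab
    push Not at hab
    obtain ⟨v, h1, h2, h3⟩ := hab
    refine ⟨v, h1, fun c d hcd => ?_, h3⟩
    rw [hD, hr] at hcd
    exact hcd v h1 h2
  · intro hall
    refine ⟨{e | ∃ v, v ≠ 0 ∧ (∀ c d, s.r c d → bel v (leaf c) = bel v (leaf d)) ∧
      e = s(v, par v)}, ?_, fun i j => ?_⟩
    · rintro e ⟨v, h1, _, rfl⟩
      exact adj_par hpar h1
    · rw [hr]
      constructor
      · rintro hij v hv ⟨w, h1, h2, h3⟩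
        have := edge_inj hpar hv h1 h3
        subst this
        exact h2 i j hij
      · intro h
        by_contra hij
        obtain ⟨v, h1, h2, h3⟩ := hall i j hij
        exact h3 (h v h1 ⟨v, h1, h2, rfl⟩)

/-- bits `o + 1, …, o + N` -/
def bits (N o : ℕ) : ℕ := (2 ^ N - 1) <<< (o + 1)

theorem bits_iff {N o w : ℕ} : (bits N o).testBit w = true ↔ o + 1 ≤ w ∧ w ≤ o + N := by
  unfold bits
  rw [Nat.testBit_shiftLeft, Nat.testBit_two_pow_sub_one, Bool.and_eq_true, decide_eq_true_eq,
    decide_eq_true_eq]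
  omega

theorem conv_iff_mem {par : Fin (N + 1) → Fin (N + 1)} (hpar : ∀ v, v ≠ 0 → par v < v)
    {bel : Fin (N + 1) → Fin (N + 1) → Bool} (hb : Below par bel)
    {leaf : Fin n → Fin (N + 1)} {hinj hdeg hleaf} {up : ℕ → ℕ} {o : ℕ}
    (hup : ∀ (v : Fin (N + 1)) (i : Fin n), v ≠ 0 →
      (up i).testBit (o + v.val) = bel v (leaf i)) (s : Setoid (Fin n)) :
    s ∈ partitions (ptree par hpar leaf hinj hdeg hleaf) ↔ Conv up (bits N o) s := by
  rw [mem_partitions hpar hb]
  have hs : ∀ (v : Fin (N + 1)) (c d : Fin n), v ≠ 0 →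
      (Sep up (o + v.val) c d ↔ bel v (leaf c) ≠ bel v (leaf d)) := by
    intro v c d hv
    rw [sep_iff, hup v c hv, hup v d hv]
  constructor
  · intro h a b hab
    obtain ⟨v, h1, h2, h3⟩ := h a b hab
    refine ⟨o + v.val, ?_, ?_, (hs v a b h1).mpr h3⟩
    · rw [bits_iff]
      have : v.val ≠ 0 := fun e => h1 (Fin.ext e)
      have := v.2
      omega
    · intro c d hcd hsep
      exact (hs v c d h1).mp hsep (h2 c d hcd)
  · intro h a b hab
    obtain ⟨w, h1, h2, h3⟩ := h a b hab
    rw [bits_iff] at h1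
    obtain ⟨v, hv⟩ : ∃ v : Fin (N + 1), o + v.val = w := ⟨⟨w - o, by omega⟩, by simp; omega⟩
    have hv0 : v ≠ 0 := by
      rintro rfl
      simp at hv
      omega
    subst hv
    refine ⟨v, hv0, fun c d hcd => ?_, (hs v a b hv0).mp h3⟩
    by_contra hne
    exact h2 c d hcd ((hs v c d hv0).mpr hne)

theorem bel_trans {par : Fin (N + 1) → Fin (N + 1)} (hpar : ∀ v, v ≠ 0 → par v < v)
    {bel : Fin (N + 1) → Fin (N + 1) → Bool} (hb : Below par bel) {w v : Fin (N + 1)}
    (hwv : bel w v = true) : ∀ m : ℕ, ∀ y : Fin (N + 1), y.val = m → bel v y = true →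
      bel w y = true := by
  intro m
  induction m using Nat.strong_induction_on with
  | _ m ih =>
    intro y hy hvy
    by_cases h1 : y = v
    · rw [h1]; exact hwv
    · by_cases h2 : y = w
      · rw [h2]; exact hb.self w
      · have hy0 : y ≠ 0 := by
          rintro rfl
          exact h1 (le_antisymm (Fin.zero_le _) (hb.le v 0 hvy))
        rw [hb.step w y hy0 h2]
        refine ih (par y).val ?_ (par y) rfl ?_
        · rw [← hy]; exact hpar y hy0
        · rw [← hb.step v y hy0 h1]; exact hvy

theorem bel_dich {par : Fin (N + 1) → Fin (N + 1)} (hpar : ∀ v, v ≠ 0 → par v < v)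
    {bel : Fin (N + 1) → Fin (N + 1) → Bool} (hb : Below par bel) {w v : Fin (N + 1)}
    : ∀ m : ℕ, ∀ x : Fin (N + 1), x.val = m → bel v x = true → bel w x = true →
      bel w v = true ∨ bel v w = true := by
  intro m
  induction m using Nat.strong_induction_on with
  | _ m ih =>
    intro x hx hvx hwx
    by_cases h1 : x = v
    · left; rw [← h1]; exact hwx
    · by_cases h2 : x = w
      · right; rw [← h2]; exact hvx
      · have hx0 : x ≠ 0 := by
          rintro rfl
          exact h1 (le_antisymm (Fin.zero_le _) (hb.le v 0 hvx))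
        refine ih (par x).val ?_ (par x) rfl ?_ ?_
        · rw [← hx]; exact hpar x hx0
        · rw [← hb.step v x hx0 h1]; exact hvx
        · rw [← hb.step w x hx0 h2]; exact hwx

theorem nc_of_conv {par : Fin (N + 1) → Fin (N + 1)} (hpar : ∀ v, v ≠ 0 → par v < v)
    {bel : Fin (N + 1) → Fin (N + 1) → Bool} (hb : Below par bel)
    {leaf : Fin n → Fin (N + 1)} {up : ℕ → ℕ} {o : ℕ}
    (hup : ∀ (v : Fin (N + 1)) (i : Fin n), v ≠ 0 →
      (up i).testBit (o + v.val) = bel v (leaf i)) {s : Setoid (Fin n)}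
    (hs : Conv up (bits N o) s) (a b c d : Fin n) (hab : s.r a b) (hcd : s.r c d)
    (hac : ¬ s.r a c) (v : ℕ) (hv : (bits N o).testBit v = true) :
    ¬ (Sep up v a b ∧ Sep up v c d) := by
  rintro ⟨h1, h2⟩
  have hsep : ∀ (v : Fin (N + 1)) (c d : Fin n), v ≠ 0 →
      (Sep up (o + v.val) c d ↔ bel v (leaf c) ≠ bel v (leaf d)) := by
    intro v c d hv
    rw [sep_iff, hup v c hv, hup v d hv]
  have get : ∀ w, (bits N o).testBit w = true → ∃ v : Fin (N + 1), v ≠ 0 ∧ o + v.val = w := by
    intro w hw
    rw [bits_iff] at hw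
    refine ⟨⟨w - o, by omega⟩, ?_, by simp; omega⟩
    intro e
    have := congrArg Fin.val e
    simp at this
    omega
  obtain ⟨w, hw1, hw2, hw3⟩ := hs a c hac
  obtain ⟨v, hv0, rfl⟩ := get v hv
  obtain ⟨w, hw0, rfl⟩ := get w hw1
  rw [hsep v _ _ hv0] at h1 h2
  rw [hsep w _ _ hw0] at hw3
  have hwab : bel w (leaf a) = bel w (leaf b) := by
    by_contra hne
    exact hw2 a b hab ((hsep w a b hw0).mpr hne)
  have hwcd : bel w (leaf c) = bel w (leaf d) := by
    by_contra hne
    exact hw2 c d hcd ((hsep w c d hw0).mpr hne)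
  -- general contradiction: x1, x2 below w, separated by v; y1, y2 not below w, separated by v
  have main : ∀ x1 x2 y1 y2 : Fin n, bel w (leaf x1) = true → bel w (leaf x2) = true →
      bel w (leaf y1) = false → bel w (leaf y2) = false → bel v (leaf x1) ≠ bel v (leaf x2) →
      bel v (leaf y1) ≠ bel v (leaf y2) → False := by
    intro x1 x2 y1 y2 g1 g2 g3 g4 g5 g6
    have hex : ∃ x : Fin n, bel w (leaf x) = true ∧ bel v (leaf x) = true := by
      cases e1 : bel v (leaf x1)
      · cases e2 : bel v (leaf x2)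
        · exact absurd (e1.trans e2.symm) g5
        · exact ⟨x2, g2, e2⟩
      · exact ⟨x1, g1, e1⟩
    have hey : ∃ y : Fin n, bel w (leaf y) = false ∧ bel v (leaf y) = true := by
      cases e1 : bel v (leaf y1)
      · cases e2 : bel v (leaf y2)
        · exact absurd (e1.trans e2.symm) g6
        · exact ⟨y2, g4, e2⟩
      · exact ⟨y1, g3, e1⟩
    obtain ⟨x, hx1, hx2⟩ := hex
    obtain ⟨y, hy1, hy2⟩ := hey
    rcases bel_dich hpar hb _ (leaf x) rfl hx2 hx1 with h | h
    · have := bel_trans hpar hb h _ (leaf y) rfl hy2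
      rw [hy1] at this
      exact Bool.false_ne_true this
    · have k1 := bel_trans hpar hb h _ (leaf x1) rfl g1
      have k2 := bel_trans hpar hb h _ (leaf x2) rfl g2
      exact g5 (k1.trans k2.symm)
  cases e : bel w (leaf a)
  · have hc : bel w (leaf c) = true := by
      cases e' : bel w (leaf c)
      · exact absurd (e.trans e'.symm) hw3
      · rfl
    exact main c d a b hc (hwcd ▸ hc) e (hwab ▸ e) h2 h1
  · have hc : bel w (leaf c) = false := by
      cases e' : bel w (leaf c)
      · rfl
      · exact absurd (e.trans e'.symm) hw3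
    exact main a b c d e (hwab ▸ e) hc (hwcd ▸ hc) h1 h2

end Pool.Agent.Work.MP_8b9f13_co
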